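import Pool.Agent.Lib.MP_7fcda1_ag.Gauss
import Pool.Agent.Lib.MP_7fcda1_ag.CT2

/-! Places of the generic fibre of a rational map from affine space to a variety. -/

open scoped IntermediateField Polynomial
open Module IsLocalRing

noncomputable section

namespace Pool.Agent.Lib.CPD

open Pool.Agent.Lib.MP_7fcda1_ag

/-- `l` divides the degree of every finite extension of `K` generated over `k` by `n` elements. -/
def Hyp (k K : Type) [Field k] [Field K] [Algebra k K] (n l : ℕ) : Prop :=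
  ∀ (E σ : Type) [Field E] [Algebra k E] [Algebra K E] [IsScalarTower k K E]
    [FiniteDimensional K E] [Fintype σ] (e : σ → E), Fintype.card σ = n →
      IntermediateField.adjoin k (Set.range e) = ⊤ → l ∣ finrank K E

theorem loc {A F : Type*} [CommRing A] [IsDomain A] [WfDvdMonoid A] [Field F]
    {V : ValuationSubring F} (hV : Disc V) (j : A →+* F) (hj : Function.Injective j)
    (hm : ∀ a, j a ∈ V) (hf : ∀ c : F, ∃ a b, b ≠ 0 ∧ c * j b = j a) {π : A}
    (hπ : ∀ a, V.valuation (j a) < 1 ↔ π ∣ a) :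
    π ≠ 0 ∧ ord V (j π) = 1 ∧ ∀ c ∈ V, ∃ a b, V.valuation (j b) = 1 ∧ c * j b = j a := by
  have hj0 : ∀ {a}, a ≠ 0 → j a ≠ 0 := fun h e => h (hj (e.trans (map_zero j).symm))
  have hu : ¬IsUnit π := fun h => by simpa using (hπ 1).2 h.dvd
  have h1 : ∀ a, ¬π ∣ a → V.valuation (j a) = 1 := fun a h =>
    le_antisymm ((V.valuation_le_one_iff _).2 (hm a)) (not_lt.1 fun e => h ((hπ a).1 e))
  have hd : ∀ c : F, c ≠ 0 → ∃ (i i' : ℕ) (a b : A), V.valuation (j a) = 1 ∧
      V.valuation (j b) = 1 ∧ j π ^ i ≠ 0 ∧ j π ^ i' ≠ 0 ∧ c * (j π ^ i' * j b) = j π ^ i * j a := by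
    intro c hc
    obtain ⟨a, b, hb, e⟩ := hf c
    have ha : a ≠ 0 := by
      rintro rfl
      exact mul_ne_zero hc (hj0 hb) (e.trans (map_zero j))
    obtain ⟨i, a', ha', rfl⟩ := WfDvdMonoid.max_power_factor' ha hu
    obtain ⟨i', b', hb', rfl⟩ := WfDvdMonoid.max_power_factor' hb hu
    refine ⟨i, i', a', b', h1 _ ha', h1 _ hb', ?_, ?_, by simpa using e⟩
    · simpa using hj0 (left_ne_zero_of_mul ha)
    · simpa using hj0 (left_ne_zero_of_mul hb)
  have ho : ∀ {c : F} {i i' : ℕ} {a b : A}, c ≠ 0 → V.valuation (j a) = 1 →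
      V.valuation (j b) = 1 → j π ^ i ≠ 0 → j π ^ i' ≠ 0 →
      c * (j π ^ i' * j b) = j π ^ i * j a → ord V c + i' * ord V (j π) = i * ord V (j π) := by
    intro c i i' a b hc ha hb hi hi' e
    obtain ⟨ha0, ha1⟩ := (val_eq_one_iff (Or.inl hV)).1 ha
    obtain ⟨hb0, hb1⟩ := (val_eq_one_iff (Or.inl hV)).1 hb
    have := congrArg (ord V) e
    rw [ord_mul hc (mul_ne_zero hi' hb0), ord_mul hi' hb0, ord_mul hi ha0, ord_pow, ord_pow, ha1,
      hb1] at this
    simpa using this
  obtain ⟨t, ht0, ht⟩ := hV.exists_ord 1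
  obtain ⟨i, i', a, b, ha, hb, hi, hi', e⟩ := hd t ht0
  have h2 := ho ht0 ha hb hi hi' e
  have h3 : ord V (j π) ∣ 1 := ⟨(i : ℤ) - i', by rw [ht] at h2; linarith⟩
  have h0 : π ≠ 0 := by
    rintro rfl
    simp at h3
  have h4 : 1 ≤ ord V (j π) :=
    (ge_iff (hj0 h0)).1 ((val_lt_one_iff (Or.inl hV)).1 ((hπ π).2 dvd_rfl))
  have h5 : ord V (j π) = 1 := le_antisymm (Int.le_of_dvd one_pos h3) h4
  refine ⟨h0, h5, fun c hc => ?_⟩
  by_cases hc0 : c = 0
  · exact ⟨0, 1, by simp, by simp [hc0]⟩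
  obtain ⟨i, i', a, b, ha, hb, hi, hi', e⟩ := hd c hc0
  have h6 := ho hc0 ha hb hi hi' e
  have h7 := (Ord2_mem hV hc0).1 hc
  rw [h5] at h6
  obtain ⟨d, rfl⟩ := Nat.exists_eq_add_of_le (show i' ≤ i by omega)
  refine ⟨π ^ d * a, b, hb, mul_left_cancel₀ hi' ?_⟩
  rw [map_mul, map_pow]
  linear_combination e

theorem to_peval {E Ω K : Type*} [Field E] [Field Ω] [Field K] [Algebra K E] [Algebra K Ω]
    {P : Plc E Ω} (hP : P.Over K) {a : E} {b : Ω} (h : P.To a b) (p : K[X]) :
    P.To (Polynomial.aeval a p) (Polynomial.aeval b p) := by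
  induction p using Polynomial.induction_on' with
  | add p q hp hq => simpa only [map_add] using hp.add hq
  | monomial i c => simpa only [Polynomial.aeval_monomial] using (hP c).mul (h.pow i)

variable {k K F : Type} [Field k] [Field K] [Field F] [Algebra k K] [Algebra K F] [Algebra k F]
  [IsScalarTower k K F] {n l : ℕ} {ι : Type}

instance algO (w : Place K F) : Algebra k w.O :=
  ((algebraMap K w.O).comp (algebraMap k K)).toAlgebra

instance towerRes (w : Place K F) : IsScalarTower k K (ResidueField w.O) :=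
  IsScalarTower.of_algebraMap_eq fun _ => rfl

/-- The residue map as a place. -/
def plc (w : Place K F) : Plc F (ResidueField w.O) :=
  ⟨w.O, residue w.O, fun a => by rw [residue_eq_zero_iff, w.O.valuation_lt_one_iff]⟩

open Classical in
/-- Residue of a function (junk value `0` at a pole). -/
def res (w : Place K F) (a : F) : ResidueField w.O :=
  if h : a ∈ w.O then residue w.O ⟨a, h⟩ else 0

theorem to_res (w : Place K F) {a : F} (h : a ∈ w.O) : (plc w).To a (res w a) :=
  ⟨h, by rw [res, dif_pos h]; rfl⟩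

theorem overK (w : Place K F) : (plc w).Over K := fun c => ⟨w.const c, rfl⟩

theorem overk (w : Place K F) : (plc w).Over k := fun c => by
  rw [IsScalarTower.algebraMap_apply k K F]
  exact overK w _

theorem res_surj (w : Place K F) (b : ResidueField w.O) : ∃ a, (plc w).To a b := by
  obtain ⟨a, rfl⟩ := residue_surjective b
  exact ⟨a, a.2, rfl⟩

theorem frac {u : ι → F} (hu : IntermediateField.adjoin k (Set.range u) = ⊤) (c : F) :
    ∃ a b : MvPolynomial ι k, MvPolynomial.aeval u b ≠ 0 ∧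
      c * MvPolynomial.aeval u b = MvPolynomial.aeval u a := by
  have hc : c ∈ IntermediateField.adjoin k (Set.range u) := hu ▸ IntermediateField.mem_top
  obtain ⟨a, b, e⟩ := IntermediateField.mem_adjoin_range_iff _ _ _ |>.1 hc
  by_cases hb : MvPolynomial.aeval u b = 0
  · exact ⟨0, 1, by simp, by simp [e, hb]⟩
  · exact ⟨a, b, hb, by rw [e, div_mul_cancel₀ _ hb]⟩

/-- Coordinates of an affine space of dimension `n + 1` with function field `F`. -/
structure Coord (k : Type) [Field k] [Algebra k F] (n : ℕ) [Fintype ι] (u : ι → F) : Prop where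
  card : Fintype.card ι = n + 1
  gen : IntermediateField.adjoin k (Set.range u) = ⊤
  rank : rk k (Set.univ : Set F) = n + 1

theorem Coord.indep [Fintype ι] {u : ι → F} (h : Coord k n u) : AlgebraicIndependent k u := by
  refine indep_of_rk ?_
  rw [h.card, Nat.cast_add, Nat.cast_one, ← h.rank]
  exact rk_le_of_mem fun s _ => h.gen ▸ IntermediateField.mem_top

/-- The centre of the place on affine space is a hypersurface. -/
def Reg (k : Type) [Field k] [Algebra k K] (n : ℕ) (w : Place K F) (u : ι → F) : Prop :=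
  (∀ i, u i ∈ w.O) ∧ (n : ℕ∞) ≤ rk k (Set.range fun i => res w (u i))

variable [IsFF K F] [Fintype ι] {u : ι → F}

theorem rk_res {x : Fin n → K} (hx : AlgebraicIndependent k x) (w : Place K F) :
    rk k (Set.range fun i => algebraMap K (ResidueField w.O) (x i)) = n := by
  have := hx.map' (f := IsScalarTower.toAlgHom k K (ResidueField w.O)) (RingHom.injective _)
  exact (rk_range_indep this).trans (by simp)

theorem finite_not_reg {x : Fin n → K} (hx : AlgebraicIndependent k x) (hu : Coord k n u) :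
    {w : Place K F | ¬Reg k n w u}.Finite := by
  choose a b hb e using fun i => frac hu.gen (algebraMap K F (x i))
  refine ((Set.finite_iUnion fun i => finite_ord (κ := K) (u i)).union
    (Set.finite_iUnion fun i => finite_ord (κ := K) (MvPolynomial.aeval u (b i)))).subset ?_
  intro w hw
  by_contra hn
  simp only [Set.mem_union, Set.mem_iUnion, Set.mem_ofPred_eq, not_or, not_exists, not_not] at hn
  have h1 : ∀ i, u i ∈ w.O := fun i => (mem_iff_ge (Or.inl w.disc)).2 (Or.inr (hn.1 i).ge)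
  refine hw ⟨h1, ?_⟩
  rw [← rk_res hx w]
  refine rk_le_of_mem ?_
  rintro _ ⟨i, rfl⟩
  have h2 := fun f => Plc.To.aeval (overk (k := k) w) (fun i => to_res w (h1 i)) f
  have h3 := (h2 (b i)).val_eq_one_iff.1 ((val_eq_one_iff (Or.inl w.disc)).2 ⟨hb i, hn.2 i⟩)
  have h4 := (overK w (x i)).mul (h2 (b i))
  rw [e i] at h4
  rw [IntermediateField.mem_adjoin_range_iff]
  exact ⟨a i, b i, (eq_div_iff h3).2 (h4.unique (h2 (a i)))⟩

theorem Reg.cen (hu : Coord k n u) {w : Place K F} (h : Reg k n w u) :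
    ∃ π : MvPolynomial ι k, (∀ f, w.O.valuation (MvPolynomial.aeval u f) < 1 ↔ π ∣ f) ∧ π ≠ 0 ∧
      ord w.O (MvPolynomial.aeval u π) = 1 ∧ ∀ c ∈ w.O, ∃ a b : MvPolynomial ι k,
        w.O.valuation (MvPolynomial.aeval u b) = 1 ∧
          c * MvPolynomial.aeval u b = MvPolynomial.aeval u a := by
  have h2 := fun f => Plc.To.aeval (overk (k := k) w) (fun i => to_res w (h.1 i)) f
  obtain ⟨π, hπ⟩ := ker_principal (k := k) (fun i => res w (u i)) (by
    rw [hu.card, Nat.cast_add, Nat.cast_one]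
    exact add_le_add_left h.2 1)
  have h3 : ∀ f, w.O.valuation (MvPolynomial.aeval u f) < 1 ↔ π ∣ f := fun f => by
    rw [← hπ]
    exact (Plc.to_zero_iff (P := plc w)).symm.trans
      ⟨fun e => (h2 f).unique e, fun e => e ▸ h2 f⟩
  refine ⟨π, h3, loc w.disc (MvPolynomial.aeval u : MvPolynomial ι k →ₐ[k] F).toRingHom hu.indep
    (fun a => (h2 a).1) (fun c => ?_) h3⟩
  obtain ⟨a, b, hb, e⟩ := frac hu.gen c
  exact ⟨a, b, fun e' => hb (by rw [e', map_zero]), e⟩

theorem Reg.gen (hu : Coord k n u) {w : Place K F} (h : Reg k n w u) :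
    IntermediateField.adjoin k (Set.range fun i => res w (u i)) = ⊤ := by
  obtain ⟨π, -, -, -, h1⟩ := h.cen hu
  have h2 := fun f => Plc.To.aeval (overk (k := k) w) (fun i => to_res w (h.1 i)) f
  refine eq_top_iff.2 fun β _ => ?_
  obtain ⟨c, hc⟩ := res_surj w β
  obtain ⟨a, b, hb, e⟩ := h1 c hc.1
  have h4 := hc.mul (h2 b)
  rw [e] at h4
  rw [IntermediateField.mem_adjoin_range_iff]
  exact ⟨a, b, (eq_div_iff ((h2 b).val_eq_one_iff.1 hb)).2 (h4.unique (h2 a))⟩

theorem Reg.rat (H : Hyp k K n l) (hu : Coord k n u) {w : Place K F} (h : Reg k n w u) {i : ι}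
    {c : k} (hc : w.O.valuation (u i - algebraMap k F c) < 1) : l ∣ w.deg := by
  classical
  have h1 : res w (u i) = algebraMap k _ c := sub_eq_zero.1
    (((to_res w (h.1 i)).sub (overk w c)).unique ((Plc.to_zero_iff (P := plc w)).2 hc))
  refine H _ {j // j ≠ i} (fun j => res w (u j)) (by simp [hu.card]) (eq_top_iff.2 ?_)
  rw [← h.gen hu, IntermediateField.adjoin_le_iff]
  rintro _ ⟨j, rfl⟩
  by_cases hj : j = i
  · subst hj
    simp only [h1]
    exact IntermediateField.algebraMap_mem _ c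
  · exact IntermediateField.subset_adjoin _ _ ⟨⟨j, hj⟩, rfl⟩

theorem dvd_sum (a : F) (T : Finset (Place K F))
    (h : ∀ w ∉ T, (l : ℤ) ∣ ord w.O a * w.deg) : (l : ℤ) ∣ ∑ w ∈ T, ord w.O a * w.deg := by
  classical
  have h1 := degD_div (κ := K) a
  rw [degD, Finsupp.linearCombination_apply,
    Finsupp.sum_of_support_subset _ (Finset.subset_union_left (s₂ := T)) _ (by simp),
    ← Finset.sum_sdiff (Finset.subset_union_right (s₁ := (div K a).support))] at h1
  simp only [div_apply, smul_eq_mul] at h1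
  rw [eq_neg_of_add_eq_zero_right h1, dvd_neg]
  exact Finset.dvd_sum fun w hw => h w (Finset.mem_sdiff.1 hw).2

theorem reg_or (H : Hyp k K n l) (hu : Coord k n u) {w : Place K F} (hw : ¬l ∣ w.deg) :
    Reg k n w u ∨ ∃ u' : ι → F, Coord k n u' ∧ (∀ i, u' i ∈ w.O) ∧ ¬Reg k n w u' := by
  classical
  by_cases h : ∀ i, u i ∈ w.O
  · exact (em _).imp id fun h' => ⟨u, hu, h, h'⟩
  obtain ⟨i, hi⟩ := not_forall.1 h
  have h1 : Coord k n fun j => if u j ∈ w.O then u j else (u j)⁻¹ := by
    refine ⟨hu.card, eq_top_iff.2 ?_, hu.rank⟩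
    rw [← hu.gen, IntermediateField.adjoin_le_iff]
    rintro _ ⟨j, rfl⟩
    have := IntermediateField.subset_adjoin k
      (Set.range fun j => if u j ∈ w.O then u j else (u j)⁻¹) ⟨j, rfl⟩
    by_cases hj : u j ∈ w.O
    · simpa [hj] using this
    · simpa [hj] using this
  refine Or.inr ⟨_, h1, fun j => ?_, fun hr => hw (hr.rat H h1 (i := i) (c := 0) ?_)⟩
  · by_cases hj : u j ∈ w.O
    · simp [hj]
    · simpa [hj] using (w.O.mem_or_inv_mem _).resolve_left hj
  · rw [map_zero, sub_zero, if_neg hi, map_inv₀]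
    rw [← w.O.valuation_le_one_iff, not_le] at hi
    exact inv_lt_one_of_one_lt₀ hi

theorem stepA (H : Hyp k K n l) (hu : Coord k n u) {w : Place K F} (hw : ¬l ∣ w.deg) :
    ∃ (w₀ : Place K F) (u' : ι → F), ¬l ∣ w₀.deg ∧ Coord k n u' ∧ (∀ i, u' i ∈ w₀.O) ∧
      ¬Reg k n w₀ u' := by
  by_contra hn
  have h1 : ∀ v : Place K F, ¬l ∣ v.deg → Reg k n v u := fun v hv =>
    (reg_or H hu hv).resolve_right fun ⟨u', h⟩ => hn ⟨v, u', hv, h⟩
  obtain ⟨π, hπ, h0, ho, hl⟩ := (h1 w hw).cen hu
  have h2 := dvd_sum (l := l) (MvPolynomial.aeval u π) {w} fun v hv => by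
    by_cases hd : l ∣ v.deg
    · exact (Int.natCast_dvd_natCast.2 hd).mul_left _
    obtain ⟨π', hπ', -, -, -⟩ := (h1 v hd).cen hu
    have hk : ∀ c, algebraMap k F c ∈ v.O := fun c => (overk v c).1
    have hm := aeval_mem hk (h1 v hd).1
    by_cases h3 : v.O.valuation (MvPolynomial.aeval u π) < 1
    · exfalso
      obtain ⟨q, hq⟩ := (hπ' π).1 h3
      have h4 : π ∣ π' := by
        by_contra h5
        have h6 : w.O.valuation (MvPolynomial.aeval u π') = 1 := le_antisymm
          ((w.O.valuation_le_one_iff _).2 (aeval_mem (fun c => (overk w c).1) (h1 w hw).1 _))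
          (not_lt.1 fun e => h5 ((hπ _).1 e))
        have h7 := (hπ π).2 dvd_rfl
        rw [hq, map_mul, map_mul, h6, one_mul] at h7
        obtain ⟨q', hq'⟩ := (hπ q).1 h7
        have h8 : π' * q' = 1 := mul_left_cancel₀ h0 (by
          rw [mul_one, mul_left_comm, ← hq', ← hq])
        simpa using (hπ' 1).2 ⟨q', h8.symm⟩
      have h5 : w.O ≤ v.O := fun c hc => by
        obtain ⟨a, b, hb, e⟩ := hl c hc
        have h6 : v.O.valuation (MvPolynomial.aeval u b) = 1 := le_antisymm
          ((v.O.valuation_le_one_iff _).2 (hm b))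
          (not_lt.1 fun e => ((hπ b).2 (h4.trans ((hπ' b).1 e))).ne hb)
        have h7 := (v.O.valuation_le_one_iff _).2 (hm a)
        rwa [← e, map_mul, h6, mul_one, v.O.valuation_le_one_iff] at h7
      exact (w.disc.eq_or_top h5).elim (fun e => hv (Finset.mem_singleton.2 (Place.ext e))) v.ne_top
    · have h4 := le_antisymm ((v.O.valuation_le_one_iff _).2 (hm π)) (not_lt.1 h3)
      rw [((val_eq_one_iff (Or.inl v.disc)).1 h4).2, zero_mul]
      exact dvd_zero _
  rw [Finset.sum_singleton, ho, one_mul] at h2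
  exact hw (Int.natCast_dvd_natCast.1 h2)

end Pool.Agent.Lib.CPD
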