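import Pool.Agent.Lib.CPD.A

/-! Triangular changes of coordinates move the centre of a place to codimension two. -/

open scoped IntermediateField Polynomial
open Module IsLocalRing

noncomputable section

namespace Pool.Agent.Lib.CPD

open Pool.Agent.Lib.MP_7fcda1_ag

variable {k K F : Type} [Field k] [Field K] [Field F] [Algebra k K] [Algebra K F] [Algebra k F]
  [IsScalarTower k K F] {n l : ℕ} {ι : Type} [IsFF K F]

theorem abh {K' : Type} [Field K'] [Algebra K' F] (w : Place K F)
    (K₀ : IntermediateField k (ResidueField w.O))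
    (h0 : ∀ c : K', algebraMap K' F c ∈ w.O → res w (algebraMap K' F c) ∈ K₀) {Z : Type}
    {z : Z → F} {z' : Z → ResidueField w.O} (hz : ∀ i, (plc w).To (z i) (z' i))
    (hi : AlgebraicIndependent K₀ z') : AlgebraicIndependent K' z := by
  classical
  have h : ∀ G : MvPolynomial Z K', (∀ m, algebraMap K' F (G.coeff m) ∈ w.O) →
      (∃ m, w.O.valuation (algebraMap K' F (G.coeff m)) = 1) →
        w.O.valuation (MvPolynomial.aeval z G) = 1 := by
    intro G hG ⟨m₀, hm₀⟩
    let c : (Z →₀ ℕ) → K₀ := fun m => ⟨res w (algebraMap K' F (G.coeff m)), h0 _ (hG m)⟩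
    have h7 := Gauss_to_aeval hz G c fun m => to_res w (hG m)
    refine h7.val_eq_one_iff.2 fun e => ?_
    have h8 := congrArg (MvPolynomial.coeff m₀) (algebraicIndependent_iff.1 hi _ e)
    have hm : m₀ ∈ G.support := by
      rw [MvPolynomial.mem_support_iff]
      intro e'
      simp [e'] at hm₀
    simp only [MvPolynomial.coeff_sum, MvPolynomial.coeff_monomial, Finset.sum_ite_eq', hm, if_true,
      MvPolynomial.coeff_zero] at h8
    exact (to_res w (hG m₀)).val_eq_one_iff.1 hm₀ (congrArg Subtype.val h8)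
  refine algebraicIndependent_iff.2 fun G hG => MvPolynomial.ext _ _ fun m => ?_
  have h1 := ge_coeff w.disc h (G := G) (N := ord w.O (algebraMap K' F (G.coeff m)) + 1)
    (Or.inl hG) m
  rcases h1 with h1 | h1
  · simpa using h1
  · omega

theorem exists_transc {x : Fin n → K} (hx : AlgebraicIndependent k x) (w : Place K F)
    (K' : IntermediateField k F) {t : F} (ht : IntermediateField.adjoin k (insert t K') = ⊤)
    {S : Set (ResidueField w.O)} {r : ℕ} (hS : rk k S = r) (hr : r + 2 ≤ n) :
    ∃ φ ∈ K', φ ∈ w.O ∧ Transcendental (IntermediateField.adjoin k S) (res w φ) := by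
  by_contra hn
  let S₀ : Set (ResidueField w.O) := res w '' {c | c ∈ K' ∧ c ∈ w.O}
  have h1 : rk k S₀ ≤ r := by
    rw [← hS]
    refine rk_le_of_alg ?_
    rintro _ ⟨c, hc, rfl⟩
    by_contra h
    exact hn ⟨c, hc.1, hc.2, h⟩
  have h2 : (n : ℕ∞) ≤ rk k (S₀ ∪ Set.univ) := by
    rw [← rk_res hx w]
    exact rk_mono fun _ _ => Or.inr trivial
  rw [Rk_union_eq] at h2
  have h3 : ((2 : ℕ) : ℕ∞) ≤ rk (IntermediateField.adjoin k S₀)
      (Set.univ : Set (ResidueField w.O)) := by
    have h4 : (r : ℕ∞) + (2 : ℕ) ≤ r + rk (IntermediateField.adjoin k S₀)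
        (Set.univ : Set (ResidueField w.O)) :=
      le_trans (by exact_mod_cast hr) (h2.trans (add_le_add_left h1 _))
    rwa [ENat.add_le_add_iff_left (ENat.natCast_ne_top r)] at h4
  obtain ⟨β, -, hβ⟩ := exists_indep h3
  choose α hα using fun i => res_surj w (β i)
  have h4 : AlgebraicIndependent K' α := abh w _ (fun (c : K') hc =>
    IntermediateField.subset_adjoin k S₀ ⟨c, ⟨c.2, hc⟩, rfl⟩) hα hβ
  have h5 : rk K' (Set.range α) ≤ rk K' (Set.range fun _ : Unit => t) := by
    refine rk_le_of_mem fun s _ => ?_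
    have h6 : IntermediateField.adjoin k (insert t (K' : Set F)) ≤
        (IntermediateField.adjoin K' (Set.range fun _ : Unit => t)).restrictScalars k := by
      rw [IntermediateField.adjoin_le_iff]
      rintro c (rfl | hc)
      · exact IntermediateField.subset_adjoin K' _ ⟨(), rfl⟩
      · exact IntermediateField.algebraMap_mem
          (IntermediateField.adjoin K' (Set.range fun _ : Unit => t)) ⟨c, hc⟩
    exact h6 (ht ▸ IntermediateField.mem_top)
  rw [rk_range_indep h4] at h5
  have h6 := h5.trans (rk_range_le _)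
  simp at h6

variable [Fintype ι]

theorem stepB1 {x : Fin n → K} (hx : AlgebraicIndependent k x) (w : Place K F) {u : ι → F}
    (hu : Coord k n u) (ho : ∀ i, u i ∈ w.O) (hr : ¬Reg k n w u) {J : Finset ι}
    (hJ : rk k ((fun i => res w (u i)) '' J) = J.card) (hc : J.card + 2 ≤ n) :
    ∃ (u' : ι → F) (J' : Finset ι), Coord k n u' ∧ (∀ i, u' i ∈ w.O) ∧ ¬Reg k n w u' ∧
      rk k ((fun i => res w (u' i)) '' J') = J'.card ∧ J'.card = J.card + 1 := by
  classical
  by_cases h : ∃ i, Transcendental (IntermediateField.adjoin k ((fun i => res w (u i)) '' J))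
      (res w (u i))
  · obtain ⟨i, hi⟩ := h
    have hiJ : i ∉ J := fun e => hi (isAlgebraic_algebraMap
      (⟨_, IntermediateField.subset_adjoin k _ ⟨i, e, rfl⟩⟩ :
        IntermediateField.adjoin k ((fun i => res w (u i)) '' J)))
    refine ⟨u, insert i J, hu, ho, hr, ?_, Finset.card_insert_of_notMem hiJ⟩
    rw [Finset.coe_insert, Set.image_insert_eq, rk_insert hi, hJ, Finset.card_insert_of_notMem hiJ]
    simp
  have h1 : rk k (Set.range fun i => res w (u i)) ≤ J.card := by
    rw [← hJ]
    refine rk_le_of_alg ?_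
    rintro _ ⟨i, rfl⟩
    by_contra h'
    exact h ⟨i, h'⟩
  obtain ⟨t, -, ht⟩ := Finset.exists_mem_notMem_of_card_lt_card (s := J) (t := Finset.univ)
    (by rw [Finset.card_univ, hu.card]; omega)
  let K' := IntermediateField.adjoin k (Set.range fun j : {j // j ≠ t} => u j)
  have h2 : IntermediateField.adjoin k (insert (u t) (K' : Set F)) = ⊤ := by
    rw [eq_top_iff, ← hu.gen]
    refine IntermediateField.adjoin.mono _ _ _ ?_
    rintro _ ⟨j, rfl⟩
    by_cases hj : j = t
    · exact Or.inl (by rw [hj])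
    · exact Or.inr (IntermediateField.subset_adjoin _ _ ⟨⟨j, hj⟩, rfl⟩)
  obtain ⟨φ, hφK, hφ, hφt⟩ := exists_transc hx w K' h2 hJ hc
  have h3 : ¬AlgebraicIndependent k fun j : {j // j ≠ t} => res w (u j) := fun e => by
    have h4 := (rk_range_indep e).symm.le.trans ((rk_mono (by
      rintro _ ⟨j, rfl⟩
      exact ⟨j.1, rfl⟩)).trans h1)
    have h5 : Fintype.card {j // j ≠ t} = n := by simp [hu.card]
    rw [h5] at h4
    have h6 : n ≤ J.card := by exact_mod_cast h4
    omega
  obtain ⟨g, hg, hg0⟩ : ∃ g : MvPolynomial {j // j ≠ t} k,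
      MvPolynomial.aeval (fun j : {j // j ≠ t} => res w (u j)) g = 0 ∧ g ≠ 0 := by
    by_contra h4
    exact h3 (algebraicIndependent_iff.2 fun g hg => by_contra fun h5 => h4 ⟨g, hg, h5⟩)
  have hb := Plc.To.aeval (overk (k := k) w) (fun j : {j // j ≠ t} => to_res w (ho j)) g
  rw [hg] at hb
  have hb0 : MvPolynomial.aeval (fun j : {j // j ≠ t} => u j) g ≠ 0 := fun e =>
    hg0 (algebraicIndependent_iff.1 (hu.indep.comp _ Subtype.val_injective) g e)
  have hbK : MvPolynomial.aeval (fun j : {j // j ≠ t} => u j) g ∈ K' :=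
    IntermediateField.algebra_adjoin_le_adjoin _ _ (by
      rw [Algebra.adjoin_range_eq_range_aeval]
      exact ⟨g, rfl⟩)
  generalize MvPolynomial.aeval (fun j : {j // j ≠ t} => u j) g = b at hb hb0 hbK
  have h4 := (to_res w hφ).add (hb.mul (to_res w (ho t)))
  rw [zero_mul, add_zero] at h4
  have h5 : res w (φ + b * u t) = res w φ := (to_res w h4.1).unique h4
  have h6 : (fun i => res w (Function.update u t (φ + b * u t) i)) '' J =
      (fun i => res w (u i)) '' J := Set.image_congr fun i hi => by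
    rw [Function.update_of_ne (fun e : i = t => ht (e ▸ hi))]
  refine ⟨Function.update u t (φ + b * u t), insert t J, ⟨hu.card, eq_top_iff.2 ?_, hu.rank⟩,
    fun i => ?_, fun hr' => ?_, ?_, Finset.card_insert_of_notMem ht⟩
  · have h7 : K' ≤ IntermediateField.adjoin k (Set.range (Function.update u t (φ + b * u t))) := by
      refine IntermediateField.adjoin.mono _ _ _ ?_
      rintro _ ⟨j, rfl⟩
      exact ⟨j.1, Function.update_of_ne j.2 _ _⟩
    rw [← h2, IntermediateField.adjoin_le_iff]
    rintro c (rfl | hc)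
    · have h8 : φ + b * u t ∈
          IntermediateField.adjoin k (Set.range (Function.update u t (φ + b * u t))) :=
        IntermediateField.subset_adjoin _ _ ⟨t, Function.update_self _ _ _⟩
      have h9 := div_mem (sub_mem h8 (h7 hφK)) (h7 hbK)
      rwa [add_sub_cancel_left, mul_div_cancel_left₀ _ hb0] at h9
    · exact h7 hc
  · by_cases hi : i = t
    · rw [hi, Function.update_self]
      exact h4.1
    · rw [Function.update_of_ne hi]
      exact ho i
  · have h7 : rk k (Set.range fun i => res w (Function.update u t (φ + b * u t) i)) ≤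
        rk k ((Set.range fun i => res w (u i)) ∪ Set.range fun _ : Unit => res w φ) := by
      refine rk_mono ?_
      rintro _ ⟨i, rfl⟩
      by_cases hi : i = t
      · exact Or.inr ⟨(), by simp only [hi, Function.update_self, h5]⟩
      · exact Or.inl ⟨i, by simp only [Function.update_of_ne hi]⟩
    have h8 := hr'.2.trans (h7.trans (rk_union_le.trans (add_le_add h1 (rk_range_le _))))
    have h9 : n ≤ J.card + Fintype.card Unit := by exact_mod_cast h8
    simp at h9
    omega
  · rw [Finset.coe_insert, Set.image_insert_eq, h6, Function.update_self, h5, rk_insert hφt, hJ,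
      Finset.card_insert_of_notMem ht]
    simp

theorem stepB {x : Fin n → K} (hx : AlgebraicIndependent k x) (w : Place K F) {u : ι → F}
    (hu : Coord k n u) (ho : ∀ i, u i ∈ w.O) (hr : ¬Reg k n w u) :
    ∃ (u' : ι → F) (J : Finset ι), Coord k n u' ∧ (∀ i, u' i ∈ w.O) ∧ ¬Reg k n w u' ∧
      rk k ((fun i => res w (u' i)) '' J) = J.card ∧ J.card + 1 = n := by
  have key : ∀ (m : ℕ) (u : ι → F) (J : Finset ι), Coord k n u → (∀ i, u i ∈ w.O) →
      ¬Reg k n w u → rk k ((fun i => res w (u i)) '' J) = J.card → J.card + 1 + m = n →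
      ∃ (u' : ι → F) (J : Finset ι), Coord k n u' ∧ (∀ i, u' i ∈ w.O) ∧ ¬Reg k n w u' ∧
        rk k ((fun i => res w (u' i)) '' J) = J.card ∧ J.card + 1 = n := by
    intro m
    induction m with
    | zero => exact fun u J h1 h2 h3 h4 h5 => ⟨u, J, h1, h2, h3, h4, h5⟩
    | succ m ih =>
      intro u J h1 h2 h3 h4 h5
      obtain ⟨u', J', g1, g2, g3, g4, g5⟩ := stepB1 hx w h1 h2 h3 h4 (by omega)
      exact ih u' J' g1 g2 g3 g4 (by omega)
  have hn : n ≠ 0 := by
    rintro rfl
    exact hr ⟨ho, by simp⟩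
  exact key (n - 1) u ∅ hu ho hr (by simp [rk]) (by simp; omega)

end Pool.Agent.Lib.CPD
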