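import Pool.Agent.Lib.CPD.A

/-! Blowing up points of a plane, seen as a sequence of affine charts. -/

open scoped IntermediateField Polynomial
open Module IsLocalRing Polynomial

noncomputable section

namespace Pool.Agent.Lib.CPD

open Pool.Agent.Lib.MP_7fcda1_ag

theorem avoid {α β : Type*} [Infinite β] {S : Set α} (hS : S.Finite) (p : α → β → Prop)
    (h : ∀ a ∈ S, ∀ c c', p a c → p a c' → c = c') : ∃ c, ∀ a ∈ S, ¬p a c := by
  obtain ⟨c, hc⟩ := (hS.biUnion (t := fun a => {c | p a c}) fun a ha =>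
    Set.Subsingleton.finite fun c hc c' hc' => h a ha c c' hc hc').exists_notMem
  exact ⟨c, fun a ha e => hc (Set.mem_biUnion ha e)⟩

theorem prim {K Ω : Type*} [Field K] [CharZero K] [Field Ω] [Algebra K Ω] {α β : Ω}
    (hα : IsAlgebraic K α) (hβ : IsAlgebraic K β) :
    ∃ (c : K) (ζ : K[X]), aeval (α + c • β) ζ = β := by
  have h1 : FiniteDimensional K K⟮α, β⟯ :=
    IntermediateField.finiteDimensional_adjoin_pair hα.isIntegral hβ.isIntegral
  have h2 := Field.finite_intermediateField_of_exists_primitive_element K K⟮α, β⟯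
    (Field.exists_primitive_element K K⟮α, β⟯)
  let a : K⟮α, β⟯ := ⟨α, IntermediateField.subset_adjoin K _ (by simp)⟩
  let b : K⟮α, β⟯ := ⟨β, IntermediateField.subset_adjoin K _ (by simp)⟩
  obtain ⟨x, y, hne, he⟩ := Finite.exists_ne_map_eq_of_infinite fun c : K => K⟮a + c • b⟯
  have h3 : b ∈ K⟮a + x • b⟯ := by
    have h4 := IntermediateField.mem_adjoin_simple_self K (a + y • b)
    rw [← he] at h4
    have h5 := IntermediateField.smul_mem _ (x := (x - y)⁻¹)
      (sub_mem (IntermediateField.mem_adjoin_simple_self K (a + x • b)) h4)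
    rwa [add_sub_add_left_eq_sub, ← sub_smul, smul_smul, inv_mul_cancel₀ (sub_ne_zero.2 hne),
      one_smul] at h5
  rw [← IntermediateField.mem_toSubalgebra,
    IntermediateField.adjoin_simple_toSubalgebra_of_isAlgebraic (Algebra.IsAlgebraic.isAlgebraic _),
    Algebra.adjoin_singleton_eq_range_aeval] at h3
  obtain ⟨ζ, hζ⟩ := h3
  refine ⟨x, ζ, ?_⟩
  have := congrArg K⟮α, β⟯.val hζ
  rwa [AlgHom.toRingHom_eq_coe, RingHom.coe_coe, ← aeval_algHom_apply] at this

variable {K F : Type} [Field K] [Field F] [Algebra K F] {y z : F} {μ : K[X]} {w : Place K F}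

theorem mem_pair {f : F} (h : f ∈ Algebra.adjoin K {y, z}) :
    ∃ g : K[X][X], aevalAeval y z g = f := by
  have : Algebra.adjoin K {y, z} ≤ (aevalAeval y z).range := by
    rw [Algebra.adjoin_le_iff]
    rintro _ (rfl | rfl)
    · exact ⟨C X, aevalAeval_X _ _⟩
    · exact ⟨X, aevalAeval_Y _ _⟩
  exact this h

theorem left_mem (y z : F) : y ∈ Algebra.adjoin K {y, z} := Algebra.subset_adjoin (by simp)

theorem right_mem (y z : F) : z ∈ Algebra.adjoin K {y, z} := Algebra.subset_adjoin (by simp)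

theorem peval_mem {R : Subalgebra K F} (h : y ∈ R) (p : K[X]) : aeval y p ∈ R := by
  have := (aeval (⟨y, h⟩ : R) p).2
  rwa [aeval_subalgebra_coe] at this

theorem pair_le {R : Subalgebra K F} (hy : y ∈ R) (hz : z ∈ R) : Algebra.adjoin K {y, z} ≤ R := by
  rw [Algebra.adjoin_le_iff]
  rintro _ (rfl | rfl) <;> assumption

theorem aa_mem (g : K[X][X]) : aevalAeval y z g ∈ Algebra.adjoin K {y, z} := by
  induction g using Polynomial.induction_on' with
  | add p q hp hq => rw [map_add]; exact add_mem hp hq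
  | monomial i p =>
    rw [← C_mul_X_pow_eq_monomial, map_mul, map_pow, aevalAeval_C, aevalAeval_Y]
    exact mul_mem (peval_mem (left_mem y z) p) (pow_mem (right_mem y z) i)

theorem pair_mem (hy : y ∈ w.O) (hz : z ∈ w.O) {f : F} (h : f ∈ Algebra.adjoin K {y, z}) :
    f ∈ w.O := pair_le (R := ⟨w.O.toSubring.toSubsemiring, w.const⟩) hy hz h

theorem to_aa {a b : ResidueField w.O} (hy : (plc w).To y a) (hz : (plc w).To z b) (g : K[X][X]) :
    (plc w).To (aevalAeval y z g) (aevalAeval a b g) := by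
  induction g using Polynomial.induction_on' with
  | add p q hp hq => simpa only [map_add] using hp.add hq
  | monomial i p =>
    simp only [← C_mul_X_pow_eq_monomial, map_mul, map_pow, aevalAeval_C, aevalAeval_Y]
    exact (to_peval (overK w) hy p).mul (hz.pow i)

theorem lt_iff {a : F} {b : ResidueField w.O} (h : (plc w).To a b) :
    w.O.valuation a < 1 ↔ b = 0 :=
  (Plc.to_zero_iff (P := plc w)).symm.trans ⟨fun e => h.unique e, fun e => e ▸ h⟩

/-- The place is centred at the closed point `μ(y) = z = 0` of the plane. -/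
def Cen (y z : F) (μ : K[X]) (w : Place K F) : Prop :=
  y ∈ w.O ∧ w.O.valuation (aeval y μ) < 1 ∧ w.O.valuation z < 1

theorem Cen.mem (h : Cen y z μ w) : z ∈ w.O := (w.O.valuation_le_one_iff _).1 h.2.2.le

theorem dvd_of_lt (hμ : Irreducible μ) (hy : y ∈ w.O) (h : w.O.valuation (aeval y μ) < 1)
    {g : K[X]} (hg : w.O.valuation (aeval y g) < 1) : μ ∣ g := by
  have h1 := fun p => lt_iff (to_peval (overK w) (to_res w hy) p)
  exact (hμ.dvd_iff_aeval_eq_zero ((h1 μ).1 h)).1 ((h1 g).1 hg)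

theorem Cen.ideal (hμ : Irreducible μ) (h : Cen y z μ w) {f : F}
    (hf : f ∈ Algebra.adjoin K {y, z}) (hv : w.O.valuation f < 1) :
    ∃ a ∈ Algebra.adjoin K {y, z}, ∃ b ∈ Algebra.adjoin K {y, z}, f = aeval y μ * a + z * b := by
  obtain ⟨g, rfl⟩ := mem_pair hf
  have e : aevalAeval y z g = aeval y (g.coeff 0) + z * aevalAeval y z g.divX := by
    conv_lhs => rw [← g.X_mul_divX_add, map_add, map_mul, aevalAeval_C, aevalAeval_Y, add_comm]
  have h1 : w.O.valuation (z * aevalAeval y z g.divX) < 1 := by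
    rw [map_mul]
    exact mul_lt_one_of_lt_of_le h.2.2
      ((w.O.valuation_le_one_iff _).2 (pair_mem h.1 h.mem (aa_mem _)))
  obtain ⟨q, hq⟩ := dvd_of_lt hμ h.1 h.2.1 (g := g.coeff 0) (by
    rw [eq_sub_of_add_eq e.symm]
    exact w.O.valuation.map_sub_lt hv h1)
  exact ⟨_, peval_mem (left_mem y z) q, _, aa_mem g.divX, by rw [e, hq, map_mul]⟩

theorem Cen.lt (hμ : Irreducible μ) (h : Cen y z μ w) {v : Place K F} (h' : Cen y z μ v) {f : F}
    (hf : f ∈ Algebra.adjoin K {y, z}) (hv : w.O.valuation f < 1) : v.O.valuation f < 1 := by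
  obtain ⟨a, ha, b, hb, rfl⟩ := h.ideal hμ hf hv
  refine v.O.valuation.map_add_lt ?_ ?_ <;> rw [map_mul]
  · exact mul_lt_one_of_lt_of_le h'.2.1
      ((v.O.valuation_le_one_iff _).2 (pair_mem h'.1 h'.mem ha))
  · exact mul_lt_one_of_lt_of_le h'.2.2
      ((v.O.valuation_le_one_iff _).2 (pair_mem h'.1 h'.mem hb))

theorem normalise [CharZero K] (hy : y ∈ w.O) (hz : z ∈ w.O) (ha : IsAlgebraic K (res w y))
    (hb : IsAlgebraic K (res w z)) : ∃ (y' z' : F) (μ : K[X]), Irreducible μ ∧ Cen y' z' μ w ∧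
      y ∈ Algebra.adjoin K {y', z'} ∧ z ∈ Algebra.adjoin K {y', z'} := by
  obtain ⟨c, ζ, hζ⟩ := prim ha hb
  have h1 := (to_res w hy).add ((overK w c).mul (to_res w hz))
  rw [← Algebra.smul_def, ← Algebra.smul_def] at h1
  have h2 := to_peval (overK w) h1
  have h3 : z ∈ Algebra.adjoin K {y + c • z, z - aeval (y + c • z) ζ} := by
    simpa using add_mem (right_mem (y + c • z) (z - aeval (y + c • z) ζ))
      (peval_mem (left_mem _ _) ζ)
  refine ⟨y + c • z, z - aeval (y + c • z) ζ, minpoly K (res w y + c • res w z),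
    minpoly.irreducible (ha.add (hb.smul c)).isIntegral, ⟨h1.1, (lt_iff (h2 _)).2
      (minpoly.aeval _ _), (lt_iff ((to_res w hz).sub (h2 ζ))).2 (by rw [hζ, sub_self])⟩, ?_, h3⟩
  simpa using sub_mem (left_mem (y + c • z) (z - aeval (y + c • z) ζ)) (Subalgebra.smul_mem _ h3 c)

theorem taylor2 (y z : F) (μ : K[X]) (c : K) : ∃ e ∈ Algebra.adjoin K {y, z},
    aeval (y + c • z) μ = aeval y μ + z * (c • aeval y μ.derivative + z * e) := by
  obtain ⟨e, he⟩ := (μ.map (algebraMap K (Algebra.adjoin K {y, z}))).binomExpansion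
    ⟨y, left_mem y z⟩ (c • ⟨z, right_mem y z⟩)
  refine ⟨_, ((c * c) • e).2, ?_⟩
  have := congrArg Subtype.val he
  simp only [derivative_map, eval_map_algebraMap, aeval_subalgebra_coe, Subalgebra.coe_add,
    Subalgebra.coe_mul, Subalgebra.coe_pow, Subalgebra.coe_smul] at this ⊢
  rw [this]
  simp only [Algebra.smul_def, map_mul]
  ring

theorem Cen.shift (h : Cen y z μ w) (c : K) : Cen (y + c • z) z μ w := by
  obtain ⟨e, he, h1⟩ := taylor2 y z μ c
  refine ⟨pair_mem h.1 h.mem (add_mem (left_mem y z) (Subalgebra.smul_mem _ (right_mem y z) c)),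
    ?_, h.2.2⟩
  rw [h1]
  refine w.O.valuation.map_add_lt h.2.1 ?_
  rw [map_mul]
  exact mul_lt_one_of_lt_of_le h.2.2 ((w.O.valuation_le_one_iff _).2 (pair_mem h.1 h.mem
    (add_mem (Subalgebra.smul_mem _ (peval_mem (left_mem y z) _) c) (mul_mem (right_mem y z) he))))

theorem exists_shift [CharZero K] (hμ : Irreducible μ) {T : Set (Place K F)} (hT : T.Finite)
    (h : ∀ w ∈ T, Cen y z μ w) : ∃ c : K, ∀ w ∈ T, z / aeval (y + c • z) μ ∈ w.O := by
  obtain ⟨c, hc⟩ := avoid hT (fun w (c : K) =>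
      w.O.valuation (aeval (y + c • z) μ) < w.O.valuation z) fun w hw c c' h1 h2 => by
    by_contra hne
    obtain ⟨e, he, h3⟩ := taylor2 y z μ c
    obtain ⟨e', he', h4⟩ := taylor2 y z μ c'
    have h5 := w.O.valuation.map_sub_lt h1 h2
    have h6 : aeval (y + c • z) μ - aeval (y + c' • z) μ =
        z * (algebraMap K F (c - c') * aeval y μ.derivative + z * (e - e')) := by
      rw [h3, h4]
      simp only [Algebra.smul_def, map_sub]
      ring
    rw [h6, map_mul, mul_lt_iff_lt_one_right (pos_of_gt h1)] at h5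
    have h7 : w.O.valuation (z * (e - e')) < 1 := by
      rw [map_mul]
      exact mul_lt_one_of_lt_of_le (h w hw).2.2 ((w.O.valuation_le_one_iff _).2
        (pair_mem (h w hw).1 (h w hw).mem (sub_mem he he')))
    have h8 := w.O.valuation.map_sub_lt h5 h7
    rw [add_sub_cancel_right, map_mul, w.CT1_val_const (sub_ne_zero.2 hne), one_mul] at h8
    exact hμ.not_isUnit (hμ.separable.isUnit_of_dvd' dvd_rfl
      (dvd_of_lt hμ (h w hw).1 (h w hw).2.1 h8))
  refine ⟨c, fun w hw => ?_⟩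
  rw [← w.O.valuation_le_one_iff, map_div₀]
  exact div_le_one_of_le₀ (not_lt.1 (hc w hw)) zero_le

theorem frac_pair (h : K⟮y, z⟯ = ⊤) (c : F) : ∃ a ∈ Algebra.adjoin K {y, z},
    ∃ b ∈ Algebra.adjoin K {y, z}, b ≠ 0 ∧ c = a / b := by
  have hc : c ∈ K⟮y, z⟯ := h ▸ IntermediateField.mem_top
  obtain ⟨a, ha, b, hb, e⟩ := IntermediateField.mem_adjoin_iff_div.1 hc
  by_cases h0 : b = 0
  · exact ⟨0, zero_mem _, 1, one_mem _, one_ne_zero, by simp [e, h0]⟩
  · exact ⟨a, ha, b, hb, h0, e⟩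

theorem top_of_mem {y' z' : F} (h : K⟮y, z⟯ = ⊤) (hy : y ∈ Algebra.adjoin K {y', z'})
    (hz : z ∈ Algebra.adjoin K {y', z'}) : K⟮y', z'⟯ = ⊤ := by
  rw [eq_top_iff, ← h, IntermediateField.adjoin_le_iff]
  rintro _ (rfl | rfl)
  · exact IntermediateField.algebra_adjoin_le_adjoin _ _ hy
  · exact IntermediateField.algebra_adjoin_le_adjoin _ _ hz

theorem gauss_iff (hμ : Irreducible μ) (hy : y ∈ w.O) (h : w.O.valuation (aeval y μ) < 1)
    (hz : z ∈ w.O) (ht : Transcendental K (res w z)) (g : K[X][X]) :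
    w.O.valuation (aevalAeval y z g) < 1 ↔ C μ ∣ g := by
  have h1 := (lt_iff (to_peval (overK w) (to_res w hy) μ)).1 h
  rw [lt_iff (to_aa (to_res w hy) (to_res w hz) g)]
  refine ⟨fun e => ?_, fun ⟨q, hq⟩ => by rw [hq, map_mul, aevalAeval_C, h1, zero_mul]⟩
  have h2 : IsIntegral K (res w y) := IsAlgebraic.isIntegral ⟨μ, hμ.ne_zero, h1⟩
  have h3 := IntermediateField.adjoin.finiteDimensional h2
  have h4 : Transcendental K⟮res w y⟯ (res w z) := ht.extendScalars _
  have h5 : g.map (aeval (IntermediateField.AdjoinSimple.gen K (res w y))).toRingHom = 0 := by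
    refine transcendental_iff.1 h4 _ ?_
    rw [← e]
    clear e
    induction g using Polynomial.induction_on' with
    | add p q hp hq => simp only [Polynomial.map_add, map_add, hp, hq]
    | monomial i p =>
      simp only [← C_mul_X_pow_eq_monomial, map_mul, map_pow, aevalAeval_C, aevalAeval_Y,
        Polynomial.map_mul, Polynomial.map_pow, map_C, map_X, aeval_C, aeval_X]
      congr 1
      exact (aeval_algebraMap_apply _ _ p).symm
  refine (C_dvd_iff_dvd_coeff _ _).2 fun i => (hμ.dvd_iff_aeval_eq_zero h1).1 ?_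
  have h6 := congrArg (fun p => algebraMap _ (ResidueField w.O) (coeff p i)) h5
  simp only [coeff_map, coeff_zero, map_zero] at h6
  exact (aeval_algebraMap_apply _ _ _).trans h6

theorem gauss_loc (hd : Disc w.O) (hμ : Irreducible μ) (h0 : aeval y μ ≠ 0) (hg : K⟮y, z⟯ = ⊤)
    (hy : y ∈ w.O) (hz : z ∈ w.O)
    (h : ∀ g : K[X][X], w.O.valuation (aevalAeval y z g) < 1 ↔ C μ ∣ g) :
    ord w.O (aeval y μ) = 1 ∧ ∀ c ∈ w.O, ∃ a b : K[X][X],
      w.O.valuation (aevalAeval y z b) = 1 ∧ c * aevalAeval y z b = aevalAeval y z a := by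
  have h1 : Function.Injective (aevalAeval y z : K[X][X] →ₐ[K] F).toRingHom := by
    refine (injective_iff_map_eq_zero _).2 fun g e => by_contra fun hg0 => ?_
    obtain ⟨i, g', h2, rfl⟩ := WfDvdMonoid.max_power_factor' hg0
      (mt isUnit_C.1 hμ.not_isUnit : ¬IsUnit (C μ))
    have e' : aevalAeval y z (C μ ^ i * g') = 0 := e
    rw [map_mul, map_pow, aevalAeval_C, mul_eq_zero, or_iff_right (pow_ne_zero _ h0)] at e'
    exact h2 ((h g').1 (by simp [e']))
  have h2 := loc hd _ h1 (fun g => pair_mem hy hz (aa_mem g)) (fun c => by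
    obtain ⟨a, ha, b, hb, hb0, e⟩ := frac_pair hg c
    obtain ⟨a, rfl⟩ := mem_pair ha
    obtain ⟨b, rfl⟩ := mem_pair hb
    exact ⟨a, b, fun e' => hb0 (by rw [e', map_zero]), by rw [e]; exact div_mul_cancel₀ _ hb0⟩) h
  exact ⟨by simpa using h2.2.1, h2.2.2⟩

theorem blowup [CharZero K] {B : Set (Place K F)} (hd : ∀ w ∈ B, Disc w.O)
    (hr : ∀ y z : F, K⟮y, z⟯ = ⊤ → Transcendental K y)
    (hf : ∀ (y z : F) (μ : K[X]), K⟮y, z⟯ = ⊤ → Irreducible μ → {w ∈ B | Cen y z μ w}.Finite)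
    (hD : ∀ (y z : F) (μ : K[X]), K⟮y, z⟯ = ⊤ → Irreducible μ → ∀ w ∈ B, Cen y z μ w →
      ord w.O z = 1 → ∃ v ∈ B, Cen y z μ v ∧ v ≠ w) (N : ℕ) :
    ∀ (y z : F) (μ : K[X]), K⟮y, z⟯ = ⊤ → Irreducible μ → (∀ w ∈ B, Cen y z μ w →
      ∃ a ∈ Algebra.adjoin K {y, z}, ∃ b ∈ Algebra.adjoin K {y, z}, b ≠ 0 ∧ a / b ∈ w.O ∧
        Transcendental K (res w (a / b)) ∧ ord w.O b < N) → ∀ w ∈ B, ¬Cen y z μ w := by
  induction N with
  | zero =>
    intro y z μ _ _ h w hw hc
    obtain ⟨a, -, b, hb, hb0, -, -, h1⟩ := h w hw hc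
    exact absurd ((Ord2_mem (hd w hw) hb0).1 (pair_mem hc.1 hc.mem hb)) (by simpa using h1)
  | succ N ih =>
    intro y₀ z μ hg₀ hμ hQ₀ w₀ hw₀ hc₀
    obtain ⟨c, hc⟩ := exists_shift hμ (hf y₀ z μ hg₀ hμ) fun w hw => hw.2
    have hy : y₀ ∈ Algebra.adjoin K {y₀ + c • z, z} := by
      simpa using sub_mem (left_mem (y₀ + c • z) z) (Subalgebra.smul_mem _ (right_mem _ z) c)
    have hb : ∀ w, Cen (y₀ + c • z) z μ w → Cen y₀ z μ w := fun w h => by
      simpa using h.shift (-c)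
    have hg := top_of_mem hg₀ hy (right_mem _ z)
    have hs : ∀ w ∈ B, Cen (y₀ + c • z) z μ w → z / aeval (y₀ + c • z) μ ∈ w.O :=
      fun w hw h => hc w ⟨hw, hb w h⟩
    have hQ : ∀ w ∈ B, Cen (y₀ + c • z) z μ w → ∃ a ∈ Algebra.adjoin K {y₀ + c • z, z},
        ∃ b ∈ Algebra.adjoin K {y₀ + c • z, z}, b ≠ 0 ∧ a / b ∈ w.O ∧
          Transcendental K (res w (a / b)) ∧ ord w.O b < (N + 1 : ℕ) := fun w hw h => by
      obtain ⟨a, ha, b, hb', h1⟩ := hQ₀ w hw (hb w h)
      exact ⟨a, pair_le hy (right_mem _ z) ha, b, pair_le hy (right_mem _ z) hb', h1⟩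
    have hc₁ := hc₀.shift c
    generalize y₀ + c • z = y at hg hs hQ hc₁
    have h0 : aeval y μ ≠ 0 := fun e => hr y z hg ⟨μ, hμ.ne_zero, e⟩
    obtain ⟨s, rfl⟩ : ∃ s, z = aeval y μ * s := ⟨z / aeval y μ, by field_simp⟩
    rw [mul_div_cancel_left₀ _ h0] at hs
    have hz : aeval y μ * s ∈ Algebra.adjoin K {y, s} :=
      mul_mem (peval_mem (left_mem y s) μ) (right_mem y s)
    have hgs := top_of_mem hg (left_mem y s) hz
    by_cases h : ∃ w ∈ B, Cen y (aeval y μ * s) μ w ∧ IsAlgebraic K (res w s)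
    · obtain ⟨w, hw, h1, h2⟩ := h
      obtain ⟨y', z', μ', hμ', h3, h4, h5⟩ := normalise h1.1 (hs w hw h1)
        ⟨μ, hμ.ne_zero, (lt_iff (to_peval (overK w) (to_res w h1.1) μ)).1 h1.2.1⟩ h2
      refine ih y' z' μ' (top_of_mem hgs h4 h5) hμ' (fun v hv h6 => ?_) w hw h3
      have h7 := h3.lt hμ' h6 (peval_mem h4 μ) h1.2.1
      have h8 : Cen y (aeval y μ * s) μ v := ⟨pair_mem h6.1 h6.mem h4, h7, by
        rw [map_mul]
        exact mul_lt_one_of_lt_of_le h7
          ((v.O.valuation_le_one_iff _).2 (pair_mem h6.1 h6.mem h5))⟩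
      obtain ⟨a, ha, b, hb', hb0, h9, ht, hN⟩ := hQ v hv h8
      have key : ∀ f ∈ Algebra.adjoin K {y, aeval y μ * s}, v.O.valuation f < 1 →
          ∃ f' ∈ Algebra.adjoin K {y', z'}, f = aeval y μ * f' := fun f hf' hl => by
        obtain ⟨p, hp, q, hq, e⟩ := h8.ideal hμ hf' hl
        refine ⟨p + s * q, pair_le h4 h5 (add_mem (pair_le (left_mem y s) hz hp)
          (mul_mem (right_mem y s) (pair_le (left_mem y s) hz hq))), by rw [e]; ring⟩
      have hbl : v.O.valuation b < 1 := by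
        by_contra hn
        have h10 : ∀ f ∈ Algebra.adjoin K {y, aeval y μ * s}, ∃ β, (plc v).To f β ∧
            IsAlgebraic K β := fun f hf' => by
          obtain ⟨g, rfl⟩ := mem_pair hf'
          refine ⟨_, to_aa (to_res v h8.1) ((Plc.to_zero_iff (P := plc v)).2 h8.2.2) g, ?_⟩
          refine (IsIntegral.of_mem_of_fg _ (fg_adjoin_of_finite (Set.toFinite _) ?_) _
            (aa_mem g)).isAlgebraic
          rintro _ (rfl | rfl)
          · exact IsAlgebraic.isIntegral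
              ⟨μ, hμ.ne_zero, (lt_iff (to_peval (overK v) (to_res v h8.1) μ)).1 h7⟩
          · exact isIntegral_zero
        obtain ⟨α, h11, h12⟩ := h10 a ha
        obtain ⟨β, h13, h14⟩ := h10 b hb'
        have h15 := h11.mul (h13.inv fun e => hn ((lt_iff h13).2 e))
        rw [← div_eq_mul_inv] at h15
        exact ht ((to_res v h9).unique h15 ▸ h12.mul h14.inv)
      have hal : v.O.valuation a < 1 := by
        rw [← div_mul_cancel₀ a hb0, map_mul, mul_comm]
        exact mul_lt_one_of_lt_of_le hbl ((v.O.valuation_le_one_iff _).2 h9)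
      obtain ⟨a', ha', rfl⟩ := key a ha hal
      obtain ⟨b', hb'', rfl⟩ := key b hb' hbl
      rw [mul_div_mul_left _ _ h0] at h9 ht
      refine ⟨a', ha', b', hb'', right_ne_zero_of_mul hb0, h9, ht, ?_⟩
      rw [ord_mul h0 (right_ne_zero_of_mul hb0)] at hN
      have := (ge_iff h0).1 ((val_lt_one_iff (Or.inl (hd v hv))).1 h7)
      push_cast at hN
      omega
    · have ht : ∀ w ∈ B, Cen y (aeval y μ * s) μ w → Transcendental K (res w s) :=
        fun w hw h1 h2 => h ⟨w, hw, h1, h2⟩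
      have h1 := fun w hw (h1 : Cen y (aeval y μ * s) μ w) =>
        gauss_iff hμ h1.1 h1.2.1 (hs w hw h1) (ht w hw h1)
      have h2 := fun w hw (h2 : Cen y (aeval y μ * s) μ w) =>
        gauss_loc (hd w hw) hμ h0 hgs h2.1 (hs w hw h2) (h1 w hw h2)
      have h3 := (val_eq_one_iff (Or.inl (hd w₀ hw₀))).1 ((to_res w₀ (hs w₀ hw₀ hc₁)).val_eq_one_iff.2
        fun e => ht w₀ hw₀ hc₁ (e ▸ isAlgebraic_zero))
      obtain ⟨v, hv, h4, h5⟩ := hD _ _ μ hg hμ w₀ hw₀ hc₁ (by
        rw [ord_mul h0 h3.1, (h2 w₀ hw₀ hc₁).1, h3.2, add_zero])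
      have h6 : v.O ≤ w₀.O := fun f hf' => by
        obtain ⟨a, b, h7, e⟩ := (h2 v hv h4).2 f hf'
        have h8 := fun g => (w₀.O.valuation_le_one_iff _).2
          (pair_mem hc₁.1 (hs w₀ hw₀ hc₁) (aa_mem g))
        have h9 := le_antisymm (h8 b) (not_lt.1 fun e' =>
          ((h1 v hv h4 b).2 ((h1 w₀ hw₀ hc₁ b).1 e')).ne h7)
        have h10 := h8 a
        rwa [← e, map_mul, h9, mul_one, w₀.O.valuation_le_one_iff] at h10
      exact ((hd v hv).eq_or_top h6).elim (fun e => h5 (Place.ext e.symm)) w₀.ne_top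

theorem blowup' [CharZero K] {B : Set (Place K F)} (hd : ∀ w ∈ B, Disc w.O)
    (hr : ∀ y z : F, K⟮y, z⟯ = ⊤ → Transcendental K y)
    (hf : ∀ (y z : F) (μ : K[X]), K⟮y, z⟯ = ⊤ → Irreducible μ → {w ∈ B | Cen y z μ w}.Finite)
    (hD : ∀ (y z : F) (μ : K[X]), K⟮y, z⟯ = ⊤ → Irreducible μ → ∀ w ∈ B, Cen y z μ w →
      ord w.O z = 1 → ∃ v ∈ B, Cen y z μ v ∧ v ≠ w)
    (ht : ∀ w ∈ B, ∃ a ∈ w.O, Transcendental K (res w a)) (hg : K⟮y, z⟯ = ⊤) (hw : w ∈ B)
    (hy : y ∈ w.O) (hz : z ∈ w.O) (ha : IsAlgebraic K (res w y)) :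
    Transcendental K (res w z) := by
  intro hb
  obtain ⟨y', z', μ, hμ, h1, h2, h3⟩ := normalise hy hz ha hb
  have hg' := top_of_mem hg h2 h3
  choose! c hc hc' using ht
  choose a ha' b hb' hb0 e using frac_pair hg'
  obtain ⟨N, hN⟩ := ((hf y' z' μ hg' hμ).image fun v => (ord v.O (b (c v))).toNat).bddAbove
  refine blowup hd hr hf hD (N + 1) y' z' μ hg' hμ (fun v hv h => ⟨_, ha' (c v), _, hb' (c v),
    hb0 _, e (c v) ▸ hc v hv, e (c v) ▸ hc' v hv, ?_⟩) w hw h1
  have : (ord v.O (b (c v))).toNat ≤ N := hN ⟨v, ⟨hv, h⟩, rfl⟩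
  omega

end Pool.Agent.Lib.CPD
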