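import Pool.Agent.Lib.CPD.B
import Pool.Agent.Lib.CPD.C

/-! Two graphs, and the main theorem on places of the generic fibre. -/

open scoped IntermediateField Polynomial
open Module IsLocalRing

noncomputable section

namespace Pool.Agent.Lib.CPD

open Pool.Agent.Lib.MP_7fcda1_ag

variable {k K F : Type} [Field k] [Field K] [Field F] [Algebra k K] [Algebra K F] [Algebra k F]
  [IsScalarTower k K F] {n l : ℕ} {σ : Type}

/-- One more coordinate. -/
def ch (x : σ → F) (z : F) : Option σ → F := fun o => o.elim z x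

omit [Field F] in
theorem range_ch (x : σ → F) (z : F) : Set.range (ch x z) = insert z (Set.range x) :=
  Option.range_eq _

theorem val_const (w : Place K F) {c : k} (hc : c ≠ 0) : w.O.valuation (algebraMap k F c) = 1 :=
  (overk w c).val_eq_one_iff.2 (by simpa using hc)

theorem inv_mem_of_not_lt {w : Place K F} {a : F} (h : ¬w.O.valuation a < 1) : a⁻¹ ∈ w.O := by
  rw [← w.O.valuation_le_one_iff, map_inv₀]
  exact inv_le_one_of_one_le₀ (not_lt.1 h)

theorem exists_gen [Infinite k] {S : Set (Place K F)} (hS : S.Finite) (a b : F) :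
    ∃ c : k, ∀ w ∈ S, ¬w.O.valuation (a - algebraMap k F c * b) < w.O.valuation b := by
  refine avoid hS _ fun w _ c c' h1 h2 => by_contra fun hne => ?_
  have h3 := w.O.valuation.map_sub_lt h2 h1
  rw [sub_sub_sub_cancel_left, ← sub_mul, ← map_sub, map_mul, val_const w (sub_ne_zero.2 hne),
    one_mul] at h3
  exact h3.false

theorem aeval_mem_field {E : Type} [Field E] [Algebra k E] {L : IntermediateField k E} {x : σ → E}
    (h : ∀ i, x i ∈ L) (g : MvPolynomial σ k) : MvPolynomial.aeval x g ∈ L := by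
  have : Algebra.adjoin k (Set.range x) ≤ L.toSubalgebra :=
    Algebra.adjoin_le (Set.range_subset_iff.2 h)
  rw [Algebra.adjoin_range_eq_range_aeval] at this
  exact this ⟨g, rfl⟩

theorem dom {w w₀ : Place K F} {x : σ → F} {c : σ → k} (hx : ∀ i, x i ∈ w₀.O)
    (hw : ∀ i, ¬w.O.valuation (x i - algebraMap k F (c i)) < 1)
    (hw₀ : ∀ i, ¬w₀.O.valuation (x i - algebraMap k F (c i)) < 1)
    (h : ∀ a : MvPolynomial σ k,
      w.O.valuation (MvPolynomial.aeval (fun i => (x i - algebraMap k F (c i))⁻¹) a) < 1 →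
      w₀.O.valuation (MvPolynomial.aeval (fun i => (x i - algebraMap k F (c i))⁻¹) a) ≠ 1) :
    ∃ D : Subalgebra k F, (∀ i, x i ∈ D) ∧ (∀ f ∈ D, w₀.O.valuation f = 1 → f⁻¹ ∈ D) ∧
      ∀ f ∈ D, f ∈ w.O ∧ (w.O.valuation f < 1 → w₀.O.valuation f ≠ 1) := by
  set t := fun i => (x i - algebraMap k F (c i))⁻¹ with ht
  let D : Subalgebra k F :=
    { carrier := {f | ∃ a s : MvPolynomial σ k, w₀.O.valuation (MvPolynomial.aeval t s) = 1 ∧
        f * MvPolynomial.aeval t s = MvPolynomial.aeval t a}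
      mul_mem' := fun ⟨a, s, h1, h2⟩ ⟨a', s', h3, h4⟩ => ⟨a * a', s * s', by simp [h1, h3], by
        rw [map_mul, map_mul, ← h2, ← h4]; ring⟩
      add_mem' := fun ⟨a, s, h1, h2⟩ ⟨a', s', h3, h4⟩ => ⟨a * s' + a' * s, s * s',
        by simp [h1, h3], by rw [map_add, map_mul, map_mul, map_mul, ← h2, ← h4]; ring⟩
      algebraMap_mem' := fun r => ⟨MvPolynomial.C r, 1, by simp, by simp⟩ }
  have hm := fun a => (w.O.valuation_le_one_iff _).2 (aeval_mem (fun c => (overk (k := k) w c).1)
    (fun i => inv_mem_of_not_lt (hw i)) a)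
  refine ⟨D, fun i => ?_, fun f ⟨a, s, h1, h2⟩ hf => ⟨s, a, by rw [← h2, map_mul, hf, h1, mul_one],
    ?_⟩, fun f ⟨a, s, h1, h2⟩ => ?_⟩
  · have h1 : w₀.O.valuation (x i - algebraMap k F (c i)) = 1 := le_antisymm
      ((w₀.O.valuation_le_one_iff _).2 (sub_mem (hx i) (overk w₀ _).1)) (not_lt.1 (hw₀ i))
    have h2 : x i - algebraMap k F (c i) ≠ 0 := fun e => by simp [e] at h1
    refine ⟨1 + MvPolynomial.C (c i) * MvPolynomial.X i, MvPolynomial.X i, by simp [ht, h1], ?_⟩
    simp only [map_add, map_one, map_mul, MvPolynomial.aeval_C, MvPolynomial.aeval_X, ht]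
    field_simp
    ring
  · rw [← h2, inv_mul_cancel_left₀ fun e => by simp [e] at hf]
  · have h3 : w.O.valuation (MvPolynomial.aeval t s) = 1 :=
      le_antisymm (hm s) (not_lt.1 fun e => h s e h1)
    have h4 : w.O.valuation f = w.O.valuation (MvPolynomial.aeval t a) := by
      rw [← h2, map_mul, h3, mul_one]
    refine ⟨(w.O.valuation_le_one_iff _).1 (h4 ▸ hm a), fun e e' => h a (h4 ▸ e) ?_⟩
    rw [← h2, map_mul, h1, e', mul_one]

section graphs

variable [IsFF K F] [Fintype σ] {x : σ → F} {z : F}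

theorem Reg.graph (H : Hyp k K n l) (hu : Coord k n (ch x z)) {w : Place K F}
    (h : Reg k n w (ch x z))
    (hz : res w z ∈ IntermediateField.adjoin k (Set.range fun j => res w (x j))) : l ∣ w.deg := by
  refine H _ σ (fun j => res w (x j)) (by simpa using hu.card) (eq_top_iff.2 ?_)
  rw [← h.gen hu, IntermediateField.adjoin_le_iff]
  rintro _ ⟨_ | j, rfl⟩
  · exact hz
  · exact IntermediateField.subset_adjoin _ _ ⟨j, rfl⟩

theorem graphs [Infinite k] (H : Hyp k K n l) {x₀ : Fin n → K} (hx : AlgebraicIndependent k x₀)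
    (hu : Coord k n (ch x z)) {w₀ : Place K F} (ho : ord w₀.O z = 1) (h0 : ¬Reg k n w₀ (ch x z))
    {c : σ → k} (hc : ∀ w : Place K F, ¬Reg k n w (ch x z) →
      ∀ i, ¬w.O.valuation (x i - algebraMap k F (c i)) < 1)
    (ha : ∀ w : Place K F, ¬l ∣ w.deg → ¬Reg k n w (ch x z) → w ≠ w₀ → w.O.valuation z < 1 →
      ∃ a : MvPolynomial σ k,
        w.O.valuation (MvPolynomial.aeval (fun i => (x i - algebraMap k F (c i))⁻¹) a) < 1 ∧
        w₀.O.valuation (MvPolynomial.aeval (fun i => (x i - algebraMap k F (c i))⁻¹) a) = 1) :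
    l ∣ w₀.deg := by
  classical
  set t := fun i => (x i - algebraMap k F (c i))⁻¹ with ht
  choose! a ha1 ha2 using ha
  have hS := finite_not_reg hx hu
  have hS' : {w : Place K F | ¬l ∣ w.deg ∧ ¬Reg k n w (ch x z) ∧ w ≠ w₀ ∧
    w.O.valuation z < 1}.Finite := hS.subset fun w hw => hw.2.1
  obtain ⟨M, hM⟩ := (hS'.image fun w => (ord w.O z).toNat).bddAbove
  have hm : ∀ w : Place K F, (∀ i, ¬w.O.valuation (x i - algebraMap k F (c i)) < 1) →
      ∀ b : MvPolynomial σ k, MvPolynomial.aeval t b ∈ w.O := fun w hw b =>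
    aeval_mem (fun c => (overk (k := k) w c).1) (fun i => inv_mem_of_not_lt (hw i)) b
  obtain ⟨g, hg1, hg2⟩ : ∃ g : MvPolynomial σ k, w₀.O.valuation (MvPolynomial.aeval t g) = 1 ∧
      ∀ w ∈ hS'.toFinset, Ge w.O (ord w.O z + 1) (MvPolynomial.aeval t g) := by
    refine ⟨(∏ w ∈ hS'.toFinset, a w) ^ (M + 1), ?_, fun w hw => ?_⟩
    · rw [map_pow, map_pow, map_prod, map_prod, Finset.prod_eq_one, one_pow]
      intro w hw
      obtain ⟨h1, h2, h3, h4⟩ := hS'.mem_toFinset.1 hw
      exact ha2 w h1 h2 h3 h4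
    · obtain ⟨h1, h2, h3, h4⟩ := hS'.mem_toFinset.1 hw
      have h5 : (ord w.O z).toNat ≤ M := hM ⟨w, ⟨h1, h2, h3, h4⟩, rfl⟩
      rw [map_pow, ← Finset.mul_prod_erase _ _ hw, map_mul]
      refine ((((val_lt_one_iff (Or.inl w.disc)).1 (ha1 w h1 h2 h3 h4)).mul
        ((mem_iff_ge (Or.inl w.disc)).1 (hm w (hc w h2) _))).pow (M + 1)).mono ?_
      push_cast
      omega
  obtain ⟨e, he⟩ := exists_gen (k := k) hS z (MvPolynomial.aeval t g)
  have hz0 : z ≠ 0 := fun e => by simp [e] at ho
  have hz : z ∈ w₀.O := (Ord2_mem w₀.disc hz0).2 (by omega)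
  have h1 : w₀.O.valuation (z - algebraMap k F e * MvPolynomial.aeval t g) = 1 :=
    le_antisymm ((w₀.O.valuation_le_one_iff _).2 (sub_mem hz (mul_mem (overk w₀ e).1
      (hm w₀ (hc w₀ h0) g)))) (hg1 ▸ not_lt.1 (he w₀ h0))
  obtain ⟨h2, h3⟩ := (val_eq_one_iff (Or.inl w₀.disc)).1 h1
  have h4 := dvd_sum (l := l) ((z - algebraMap k F e * MvPolynomial.aeval t g) / z) {w₀}
    fun v hv => by
    by_cases hd : l ∣ v.deg
    · exact (Int.natCast_dvd_natCast.2 hd).mul_left _
    suffices h : ord v.O ((z - algebraMap k F e * MvPolynomial.aeval t g) / z) = 0 by simp [h]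
    have key : v.O.valuation (z - algebraMap k F e * MvPolynomial.aeval t g) = v.O.valuation z →
        ord v.O ((z - algebraMap k F e * MvPolynomial.aeval t g) / z) = 0 := fun h =>
      ((val_eq_one_iff (Or.inl v.disc)).1 (by
        rw [map_div₀, h, div_self (by simpa using hz0)])).2
    by_cases hr : Reg k n v (ch x z)
    · have h5 : ∀ i, ¬v.O.valuation (x i - algebraMap k F (c i)) < 1 := fun i h =>
        hd (hr.rat H hu (i := some i) h)
      have h6 : ∀ (e' : k), v.O.valuation (z - algebraMap k F e' * MvPolynomial.aeval t g) = 1 := by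
        intro e'
        have h7 : ∀ i, (plc v).To (t i) (res v (x i) - algebraMap k _ (c i))⁻¹ := fun i => by
          have h8 := (to_res v (hr.1 (some i))).sub (overk v (c i))
          exact h8.inv fun e => h5 i ((lt_iff h8).2 e)
        refine ((to_res v (hr.1 none)).sub ((overk v e').mul
          (Plc.To.aeval (overk v) h7 g))).val_eq_one_iff.2 fun h => hd (hr.graph H hu ?_)
        have h9 : res v z = _ := sub_eq_zero.1 h
        rw [h9]
        refine mul_mem (IntermediateField.algebraMap_mem _ _) ?_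
        refine aeval_mem_field (fun i => ?_) g
        exact inv_mem (sub_mem (IntermediateField.subset_adjoin _ _ ⟨i, rfl⟩)
          (IntermediateField.algebraMap_mem _ _))
      exact key ((h6 e).trans (by simpa using (h6 0).symm))
    · by_cases hl : v.O.valuation z < 1
      · have h5 := ((mem_iff_ge (Or.inl v.disc)).1 (overk v e).1).mul
          (hg2 v (hS'.mem_toFinset.2 ⟨hd, hr, fun e => hv (by simp [e]), hl⟩))
        rw [zero_add] at h5
        rw [ord_div h2 hz0, sub_eq_add_neg z, (ord_add_of_ge hz0 h5.neg).2, sub_self]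
      · have h5 := (v.O.valuation_le_one_iff _).2 (hm v (hc v hr) g)
        have h6 : v.O.valuation (algebraMap k F e * MvPolynomial.aeval t g) ≤
            v.O.valuation (MvPolynomial.aeval t g) := by
          rw [map_mul]
          exact mul_le_of_le_one_left' ((v.O.valuation_le_one_iff _).2 (overk v e).1)
        refine key (le_antisymm (v.O.valuation.map_sub_le le_rfl
          (h6.trans (h5.trans (not_lt.1 hl)))) ?_)
        have h7 := v.O.valuation.map_add_le le_rfl (h6.trans (not_lt.1 (he v hr)))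
        rwa [sub_add_cancel] at h7
  rw [Finset.sum_singleton, ord_div h2 hz0, h3, ho] at h4
  exact Int.natCast_dvd_natCast.1 (by simpa using h4)

end graphs

section base

variable {K₀ J : Type} [Field K₀] [Algebra k K₀] {v : J → K₀}

theorem range_base (hv : IntermediateField.adjoin k (Set.range v) = ⊤) (Ω : Type) [Field Ω]
    [Algebra k Ω] [Algebra K₀ Ω] [IsScalarTower k K₀ Ω] :
    (IntermediateField.adjoin k (Set.range fun j => algebraMap K₀ Ω (v j)) : Set Ω) =
      Set.range (algebraMap K₀ Ω) := by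
  have := IntermediateField.adjoin_map k (Set.range v) (IsScalarTower.toAlgHom k K₀ Ω)
  rw [hv, ← Set.range_comp, ← AlgHom.fieldRange_eq_map] at this
  exact congrArg SetLike.coe this.symm

theorem alg_base (hv : IntermediateField.adjoin k (Set.range v) = ⊤) {Ω : Type} [Field Ω]
    [Algebra k Ω] [Algebra K₀ Ω] [IsScalarTower k K₀ Ω] (β : Ω) : IsAlgebraic K₀ β ↔
      IsAlgebraic (IntermediateField.adjoin k (Set.range fun j => algebraMap K₀ Ω (v j))) β :=
  ⟨Rk_alg_of_subset (RingHom.injective _) fun c =>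
    ⟨⟨_, (Set.ext_iff.1 (range_base hv Ω) _).2 ⟨c, rfl⟩⟩, rfl⟩,
    Rk_alg_of_subset (RingHom.injective _) fun c => (Set.ext_iff.1 (range_base hv Ω) _).1 c.2⟩

theorem rk_base [Fintype J] (hi : AlgebraicIndependent k v) (Ω : Type) [Field Ω]
    [Algebra k Ω] [Algebra K₀ Ω] [IsScalarTower k K₀ Ω] :
    rk k (Set.range fun j => algebraMap K₀ Ω (v j)) = Fintype.card J :=
  rk_range_indep (hi.map' (f := IsScalarTower.toAlgHom k K₀ Ω) (RingHom.injective _))

variable [Algebra K₀ F] [IsScalarTower k K₀ F]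

theorem gen_base (hv : IntermediateField.adjoin k (Set.range v) = ⊤) (S : Set F) :
    IntermediateField.adjoin k ((Set.range fun j => algebraMap K₀ F (v j)) ∪ S) = ⊤ ↔
      IntermediateField.adjoin K₀ S = ⊤ := by
  have h1 := fun c => (Set.ext_iff.1 (range_base hv F) c)
  simp only [eq_top_iff]
  refine ⟨fun h c _ => (?_ : _ ≤ (IntermediateField.adjoin K₀ S).restrictScalars k)
    (h IntermediateField.mem_top), fun h c _ => ?_⟩
  · rw [IntermediateField.adjoin_le_iff]
    rintro c (⟨j, rfl⟩ | hc)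
    · exact IntermediateField.algebraMap_mem (IntermediateField.adjoin K₀ S) _
    · exact IntermediateField.subset_adjoin K₀ S hc
  · refine (?_ : IntermediateField.adjoin K₀ S ≤ (IntermediateField.adjoin k
      ((Set.range fun j => algebraMap K₀ F (v j)) ∪ S)).toSubfield.toIntermediateField fun c =>
        IntermediateField.adjoin.mono _ _ _ Set.subset_union_left ((h1 _).2 ⟨c, rfl⟩))
          (h IntermediateField.mem_top)
    rw [IntermediateField.adjoin_le_iff]
    exact fun c hc => IntermediateField.subset_adjoin k _ (Or.inr hc)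

/-- A place trivial on another subfield. -/
def up (w : Place K F) (h : ∀ c : K₀, algebraMap K₀ F c ∈ w.O) : Place K₀ F := ⟨w.O, w.ne_top, h⟩

theorem rk_up (w : Place K F) (h : ∀ c : K₀, algebraMap K₀ F c ∈ w.O) (u : σ → F) :
    rk k (Set.range fun i => res (up w h) (u i)) = rk k (Set.range fun i => res w (u i)) := by
  let φ : ResidueField w.O →ₐ[k] ResidueField (up w h).O :=
    { RingHom.id _ with
      commutes' := fun c => (overk (k := k) w c).unique (overk (k := k) (up w h) c) }
  rw [← rk_image φ, ← Set.range_comp]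
  rfl

omit [Algebra k F] [IsScalarTower k K₀ F] in
theorem reg_iff [Fintype J] (hv : IntermediateField.adjoin k (Set.range v) = ⊤)
    (hi : AlgebraicIndependent k v) (hJ : Fintype.card J + 1 = n) {w : Place K₀ F} {y z : F}
    (hy : y ∈ w.O) (hz : z ∈ w.O) : Reg k n w (ch (ch (fun j => algebraMap K₀ F (v j)) y) z) ↔
      ¬(IsAlgebraic K₀ (res w y) ∧ IsAlgebraic K₀ (res w z)) := by
  have h1 : (Set.range fun i => res w (ch (ch (fun j => algebraMap K₀ F (v j)) y) z i)) =
      insert (res w z) (insert (res w y) (Set.range fun j => algebraMap K₀ _ (v j))) := by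
    rw [← range_ch, ← range_ch]
    congr 1
    funext i
    rcases i with _ | _ | j
    · rfl
    · rfl
    · exact (to_res w (w.const _)).unique (overK w _)
  have h2 := rk_base hi (ResidueField w.O)
  rw [Reg, h1, alg_base hv, alg_base hv, ← hJ, Nat.cast_add, Nat.cast_one, ← h2]
  constructor
  · rintro ⟨-, h3⟩ ⟨h4, h5⟩
    have h6 := h3.trans (rk_le_of_alg (T := Set.range fun j => algebraMap K₀ _ (v j)) (by
      rintro _ (rfl | rfl | h)
      · exact h5
      · exact h4
      · exact isAlgebraic_algebraMap (⟨_, IntermediateField.subset_adjoin k _ h⟩ :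
          IntermediateField.adjoin k (Set.range fun j => algebraMap K₀ (ResidueField w.O) (v j)))))
    rw [h2] at h6
    exact absurd (by exact_mod_cast h6 : Fintype.card J + 1 ≤ Fintype.card J) (by omega)
  · intro h
    refine ⟨?_, ?_⟩
    · rintro (_ | _ | j)
      · exact hz
      · exact hy
      · exact w.const _
    · rcases not_and_or.1 h with h | h <;> rw [← rk_insert h] <;> exact rk_mono (by grind)

theorem plane [CharZero k] [IsFF K F] [Fintype J] (H : Hyp k K n l) {x₀ : Fin n → K}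
    (hx : AlgebraicIndependent k x₀) (hF : rk k (Set.univ : Set F) = n + 1)
    (hv : IntermediateField.adjoin k (Set.range v) = ⊤) (hi : AlgebraicIndependent k v)
    (hJ : Fintype.card J + 1 = n) {w : Place K F} (h : ∀ c : K₀, algebraMap K₀ F c ∈ w.O)
    {y z : F} (hg : K₀⟮y, z⟯ = ⊤) (hy : y ∈ w.O) (hz : z ∈ w.O)
    (hr : ¬Reg k n w (ch (ch (fun j => algebraMap K₀ F (v j)) y) z)) : l ∣ w.deg := by
  by_contra hw
  have : CharZero K₀ := charZero_of_injective_algebraMap (algebraMap k K₀).injective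
  have hco : ∀ y z : F, K₀⟮y, z⟯ = ⊤ →
      Coord k n (ch (ch (fun j => algebraMap K₀ F (v j)) y) z) := fun y z h =>
    ⟨by simp [hJ], by
      rw [← (gen_base hv _).2 h, range_ch, range_ch]
      congr 1
      grind, hF⟩
  have hre : ∀ (w : Place K F) (h : ∀ c : K₀, algebraMap K₀ F c ∈ w.O) {y z : F}, y ∈ w.O →
      z ∈ w.O → (¬Reg k n w (ch (ch (fun j => algebraMap K₀ F (v j)) y) z) ↔
        IsAlgebraic K₀ (res (up w h) y) ∧ IsAlgebraic K₀ (res (up w h) z)) := by
    intro w h y z hy hz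
    rw [← not_not (a := _ ∧ _), ← reg_iff (w := up w h) hv hi hJ hy hz, Reg, Reg, rk_up]
    rfl
  have hce : ∀ (w : Place K F) (h : ∀ c : K₀, algebraMap K₀ F c ∈ w.O) {y z : F} {μ : K₀[X]},
      Irreducible μ → Cen y z μ (up w h) →
        ¬Reg k n w (ch (ch (fun j => algebraMap K₀ F (v j)) y) z) := fun w h y z μ hμ hc =>
    (hre w h hc.1 hc.mem).2 ⟨⟨μ, hμ.ne_zero,
      (lt_iff (to_peval (overK _) (to_res _ hc.1) μ)).1 hc.2.1⟩,
      (lt_iff (to_res _ hc.mem)).1 hc.2.2 ▸ isAlgebraic_zero⟩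
  obtain ⟨ha, hb⟩ := (hre w h hy hz).1 hr
  refine blowup' (B := {w' | ∃ (w : Place K F) (h : _), up w h = w' ∧ ¬l ∣ w.deg}) ?_
    (fun y z hg => ?_) (fun y z μ hg hμ => ?_) ?_ ?_ hg ⟨w, h, rfl, hw⟩ hy hz ha hb
  · rintro _ ⟨w, h, rfl, -⟩
    exact w.disc
  · rw [Transcendental, alg_base hv, IntermediateField.isAlgebraic_adjoin_iff]
    exact (AlgebraicIndependent.option_iff.1 (AlgebraicIndependent.option_iff.1
      (hco y z hg).indep).1).2
  · refine Set.Finite.of_finite_image (f := Place.O)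
      (((finite_not_reg hx (hco y z hg)).image Place.O).subset ?_) fun _ _ _ _ => Place.ext
    rintro _ ⟨_, ⟨⟨w, h, rfl, -⟩, hc⟩, rfl⟩
    exact ⟨w, hce w h hμ hc, rfl⟩
  · rintro y z μ hg hμ _ ⟨w₀, h₀, rfl, hw₀⟩ hc ho
    by_contra hn
    have hS := finite_not_reg hx (hco y z hg)
    choose c hc' using fun i => exists_gen (k := k) hS (ch (fun j => algebraMap K₀ F (v j)) y i) 1
    simp only [mul_one, map_one] at hc'
    refine hw₀ (graphs H hx (hco y z hg) ho (hce w₀ h₀ hμ hc) (c := c) (fun w hw i => hc' i w hw)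
      fun w hw hr hne hl => by_contra fun hn' => hn ?_)
    obtain ⟨D, h1, h2, h3⟩ := dom (w := w) (w₀ := w₀) (c := c) (by
        rintro (_ | j)
        · exact hc.1
        · exact h₀ _) (fun i => hc' i w hr) (fun i => hc' i w₀ (hce w₀ h₀ hμ hc))
      fun a e e' => hn' ⟨a, e, e'⟩
    have h4 : ∀ c : K₀, algebraMap K₀ F c ∈ D := fun c => by
      obtain ⟨a, b, hb, e⟩ := frac hv c
      have h5 : ∀ g : MvPolynomial J k, algebraMap K₀ F (MvPolynomial.aeval v g) ∈ D := fun g => by
        induction g using MvPolynomial.induction_on with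
        | C a => simp [← IsScalarTower.algebraMap_apply]
        | add p q hp hq => simpa using add_mem hp hq
        | mul_X p j hp =>
          rw [map_mul, map_mul, MvPolynomial.aeval_X]
          exact mul_mem hp (h1 (some j))
      rw [eq_div_of_mul_eq hb e, map_div₀, div_eq_mul_inv]
      exact mul_mem (h5 a) (h2 _ (h5 b) ((up w₀ h₀).CT1_val_const hb))
    have h5 : ∀ c : K₀, algebraMap K₀ F c ∈ w.O := fun c => (h3 _ (h4 c)).1
    have h6 : y ∈ w.O := (h3 _ (h1 none)).1
    have h7 := ((hre w h5 h6 ((w.O.valuation_le_one_iff _).1 hl.le)).1 hr).1.isIntegral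
    have h8 := fun p => lt_iff (to_peval (overK _) (to_res (up w h5) h6) p)
    have h9 := (h3 _ (peval_mem (R := ⟨D.toSubsemiring, h4⟩) (h1 none) _)).2
      ((h8 _).2 (minpoly.aeval K₀ _))
    have h10 := dvd_of_lt hμ hc.1 hc.2.1 (lt_of_le_of_ne ((w₀.O.valuation_le_one_iff _).2
      ((up w₀ h₀).CT1_aeval_mem hc.1 _)) h9)
    exact ⟨up w h5, ⟨w, h5, rfl, hw⟩, ⟨h6, (h8 μ).2 (minpoly.dvd_iff.1
      (hμ.dvd_symm (minpoly.irreducible h7) h10)), hl⟩,
      fun e => hne (Place.ext (congrArg (Place.O (κ := K₀)) e))⟩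
  · rintro _ ⟨w, h, rfl, -⟩
    by_contra hn
    choose a ha using fun i => res_surj w (algebraMap K _ (x₀ i))
    have h1 : rk k (Set.range fun i => res w (a i)) = n := by
      rw [← rk_res hx w]
      congr 2
      funext i
      exact (to_res w (ha i).1).unique (ha i)
    rw [← rk_up w h] at h1
    have h2 := h1.ge.trans (rk_le_of_alg (T := Set.range fun j => algebraMap K₀ _ (v j)) (by
      rintro _ ⟨i, rfl⟩
      exact (alg_base hv _).1 (by_contra fun e => hn ⟨_, (ha i).1, e⟩)))
    rw [rk_base hi] at h2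
    exact absurd (by exact_mod_cast h2 : n ≤ Fintype.card J) (by omega)

end base

theorem gen_self {E : Type} [Field E] [Algebra k E] (v : σ → E) :
    IntermediateField.adjoin k (Set.range fun j => (⟨v j, IntermediateField.subset_adjoin k _
      ⟨j, rfl⟩⟩ : IntermediateField.adjoin k (Set.range v))) = ⊤ := by
  apply IntermediateField.lift_injective
  rw [IntermediateField.lift_adjoin, IntermediateField.lift_top, ← Set.range_comp]
  rfl

theorem core [CharZero k] [IsFF K F] [Fintype σ] (H : Hyp k K n l) {x₀ : Fin n → K}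
    (hx : AlgebraicIndependent k x₀) {u : σ → F} (hu : Coord k n u) (w : Place K F) :
    l ∣ w.deg := by
  classical
  by_contra hw
  obtain ⟨w, u, hw, hu, ho, hr⟩ := stepA H hu hw
  obtain ⟨u, J, hu, ho, hr, hJ, hc⟩ := stepB hx w hu ho hr
  obtain ⟨i, j, -, hij⟩ := Finset.card_eq_two.1 (show Jᶜ.card = 2 by
    rw [Finset.card_compl, hu.card]; omega)
  have h1 : ∀ {E : Type} (f : σ → E), Set.range f = (Set.range fun t : J => f t) ∪ {f i, f j} := by
    intro E f
    refine subset_antisymm ?_ (by grind)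
    rintro _ ⟨t, rfl⟩
    by_cases ht : t ∈ J
    · exact Or.inl ⟨⟨t, ht⟩, rfl⟩
    · have := Finset.mem_compl.2 ht
      grind
  have h2 : AlgebraicIndependent k fun t : J => res w (u t) := indep_of_rk (by
    rw [Fintype.card_coe, ← hJ, Set.image_eq_range]
    rfl)
  refine hw (plane (K₀ := IntermediateField.adjoin k (Set.range fun t : J => u t)) H hx hu.rank
    (gen_self _) (AlgebraicIndependent.of_comp (IntermediateField.val _)
      (hu.indep.comp _ Subtype.val_injective)) (by simpa using hc) (fun c => ?_)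
    ((gen_base (gen_self _) _).1 (h1 u ▸ hu.gen)) (ho i) (ho j) fun h => hr ⟨ho, h.2.trans
      (rk_mono ?_)⟩)
  · obtain ⟨a, b, e⟩ := (IntermediateField.mem_adjoin_range_iff _ _ _).1 c.2
    have h3 := fun f => Plc.To.aeval (overk (k := k) w) (fun t : J => to_res w (ho t)) f
    change c.1 ∈ w.O
    rw [e, div_eq_mul_inv]
    by_cases hb : b = 0
    · simp [hb, zero_mem]
    · exact mul_mem (h3 a).1 ((h3 b).inv fun e' => hb (algebraicIndependent_iff.1 h2 b e')).1
  · rintro _ ⟨_ | _ | t, rfl⟩ <;> exact ⟨_, rfl⟩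

end Pool.Agent.Lib.CPD
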