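import Pool.Agent.Lib.CPD.D

/-! Stable invariance, multisections, and the final assembly. -/

open scoped IntermediateField Polynomial
open Module IsLocalRing

noncomputable section

namespace Pool.Agent.Lib.CPD

open Pool.Agent.Lib.MP_7fcda1_ag

variable {k K : Type} [Field k] [Field K] [Algebra k K] {n l : ℕ}

theorem rk_univ (E : Type) [Field E] [Algebra k E] [Algebra K E] [IsScalarTower k K E] :
    rk k (Set.univ : Set E) = rk k (Set.univ : Set K) + rk K (Set.univ : Set E) := by
  rw [← rk_tower, Set.union_univ]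

theorem rk_alg (E : Type) [Field E] [Algebra K E] [Algebra.IsAlgebraic K E] :
    rk K (Set.univ : Set E) = 0 := by
  have h : rk K (Set.univ : Set E) ≤ rk K (∅ : Set E) := rk_le_of_alg fun s _ =>
    (Algebra.IsAlgebraic.isAlgebraic (R := K) s).tower_top _
  simpa [rk] using h

theorem rk_gen {E : Type} [Field E] [Algebra k E] {S : Set E}
    (h : IntermediateField.adjoin k S = ⊤) : rk k (Set.univ : Set E) = rk k S :=
  le_antisymm (rk_le_of_mem fun _ _ => h ▸ IntermediateField.mem_top) (rk_mono (Set.subset_univ _))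

theorem isFF {F σ : Type} [Field F] [Algebra k F] [Algebra K F] [IsScalarTower k K F] [Fintype σ]
    {u : σ → F} (hu : Coord k n u) (hK : rk k (Set.univ : Set K) = n) : IsFF K F := by
  have h1 : rk K (Set.univ : Set F) = 1 := by
    have := hu.rank
    rw [rk_univ (K := K), hK] at this
    exact (ENat.addLECancellable_natCast n).inj.1 this
  obtain ⟨f, -, hf⟩ := exists_indep (j := 1) h1.ge
  have h2 : rk K (Set.range f) = 1 := (rk_range_indep hf).trans (by simp)
  refine ⟨f 0, hf.transcendental 0, finite_of_rk (Set.finite_range u) (eq_top_iff.2 fun c _ => ?_)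
    (ne_top_of_le_ne_top (by simp) ((rk_mono (Set.subset_univ _)).trans h1.le))
    (h1.le.trans (h2.ge.trans (rk_mono ?_)))⟩
  · refine (?_ : _ ≤ (IntermediateField.adjoin K _).restrictScalars k)
      (hu.gen ▸ IntermediateField.mem_top : c ∈ IntermediateField.adjoin k (Set.range u))
    rw [IntermediateField.adjoin_le_iff]
    exact fun c hc => IntermediateField.subset_adjoin K _ (Or.inl hc)
  · rintro _ ⟨i, rfl⟩
    rw [Subsingleton.elim i 0]
    exact IntermediateField.mem_adjoin_simple_self K _

theorem finrank_range (k K E : Type) [Field k] [Field K] [Field E] [Algebra k K] [Algebra k E]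
    [Algebra K E] [IsScalarTower k K E] :
    finrank (IsScalarTower.toAlgHom k K E).fieldRange E = finrank K E :=
  (Algebra.finrank_eq_of_equiv_equiv (IsScalarTower.toAlgHom k K E).equivFieldRange.toRingEquiv
    (RingEquiv.refl E) (by ext; rfl)).symm

section stable

variable [CharZero k] {K' : Type} [Field K'] [Algebra k K'] [Algebra K K'] [IsScalarTower k K K']

theorem Hyp.step (H : Hyp k K n l) (hK : rk k (Set.univ : Set K) = n) {t : K'} (ht : K⟮t⟯ = ⊤)
    (h1 : rk K (Set.univ : Set K') = 1) : Hyp k K' (n + 1) l := by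
  intro E σ _ _ _ _ _ _ e hc he
  let : Algebra K E := ((algebraMap K' E).comp (algebraMap K K')).toAlgebra
  have : IsScalarTower K K' E := IsScalarTower.of_algebraMap_eq fun _ => rfl
  have : IsScalarTower k K E := IsScalarTower.of_algebraMap_eq fun c => by
    rw [IsScalarTower.algebraMap_apply k K' E, IsScalarTower.algebraMap_apply k K K']
    rfl
  have hu : Coord k n e := ⟨hc, he, by
    rw [rk_univ (K := K'), rk_univ (K := K), hK, h1, rk_alg, add_zero]⟩
  have := isFF hu hK
  obtain ⟨x, -, hx⟩ := exists_indep hK.ge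
  have h2 : Transcendental K t := fun h => by
    have : Algebra.IsAlgebraic K K' := ⟨fun c => by
      have := IntermediateField.adjoin.finiteDimensional h.isIntegral
      exact (Algebra.IsAlgebraic.isAlgebraic (R := K)
        (⟨c, ht ▸ IntermediateField.mem_top⟩ : K⟮t⟯)).algebraMap⟩
    simp [rk_alg] at h1
  have h3 := degD_poles (κ := K)
    ((transcendental_algebraMap_iff (algebraMap K' E).injective).2 h2)
  have h4 := IntermediateField.adjoin_map K {t} (IsScalarTower.toAlgHom K K' E)
  rw [ht, Set.image_singleton, ← AlgHom.fieldRange_eq_map] at h4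
  have h5 := finrank_range K K' E
  rw [h4] at h5
  rw [← Int.natCast_dvd_natCast, ← h5]
  refine h3 ▸ ?_
  rw [degD, Finsupp.linearCombination_apply]
  exact Finset.dvd_sum fun w _ => (Int.natCast_dvd_natCast.2 (core H hx hu w)).mul_left _

end stable

theorem Hyp.stable [CharZero k] (H : Hyp k K n l) (hK : rk k (Set.univ : Set K) = n) (m : ℕ) :
    ∀ (K' : Type) [Field K'] [Algebra k K'] [Algebra K K'] [IsScalarTower k K K'] (t : Fin m → K'),
      IntermediateField.adjoin K (Set.range t) = ⊤ → rk K (Set.univ : Set K') = m →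
        Hyp k K' (n + m) l := by
  induction m with
  | zero =>
    intro K' _ _ _ _ t ht _ E σ _ _ _ _ _ _ e hc he
    let : Algebra K E := ((algebraMap K' E).comp (algebraMap K K')).toAlgebra
    have : IsScalarTower K K' E := IsScalarTower.of_algebraMap_eq fun _ => rfl
    have : IsScalarTower k K E := IsScalarTower.of_algebraMap_eq fun c => by
      rw [IsScalarTower.algebraMap_apply k K' E, IsScalarTower.algebraMap_apply k K K']
      rfl
    have h1 : finrank K K' = 1 := IntermediateField.bot_eq_top_iff_finrank_eq_one.1 (by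
      simpa using ht)
    have : FiniteDimensional K K' := Module.finite_of_finrank_pos (by omega)
    have : FiniteDimensional K E := Module.Finite.trans K' E
    have h2 := H E σ e hc he
    rwa [← Module.finrank_mul_finrank K K' E, h1, one_mul] at h2
  | succ m ih =>
    intro K' _ _ _ _ t ht hm
    have h1 : AlgebraicIndependent K t := indep_of_rk (by rw [← rk_gen ht, hm]; simp)
    have h2 : rk K (Set.univ : Set (IntermediateField.adjoin K (Set.range (Fin.tail t)))) = m := by
      rw [Rk_univ_adjoin]
      exact (rk_range_indep (h1.comp _ (Fin.succ_injective m))).trans (by simp)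
    have : IsScalarTower k (IntermediateField.adjoin K (Set.range (Fin.tail t))) K' :=
      IsScalarTower.of_algebraMap_eq fun _ => rfl
    refine (ih _ _ (gen_self _) h2).step (t := t 0) (by rw [rk_univ (K := K), hK, h2]; simp)
      ((gen_base (gen_self _) _).1 ?_) ?_
    · rw [← ht, Fin.range_fin_succ, Set.union_singleton]
      rfl
    · rw [rk_univ (K := IntermediateField.adjoin K (Set.range (Fin.tail t))), h2] at hm
      exact (ENat.addLECancellable_natCast m).inj.1 hm

theorem gen_frac (k σ : Type) [Field k] : IntermediateField.adjoin k (Set.range fun i : σ =>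
    algebraMap (MvPolynomial σ k) (FractionRing (MvPolynomial σ k)) (MvPolynomial.X i)) = ⊤ := by
  refine eq_top_iff.2 fun c _ => ?_
  obtain ⟨a, b, -, rfl⟩ := IsFractionRing.div_surjective (MvPolynomial σ k) c
  rw [IntermediateField.mem_adjoin_range_iff]
  refine ⟨a, b, ?_⟩
  have h : (MvPolynomial.aeval fun i : σ => algebraMap (MvPolynomial σ k)
      (FractionRing (MvPolynomial σ k)) (MvPolynomial.X i)) = IsScalarTower.toAlgHom k _ _ :=
    MvPolynomial.algHom_ext fun i => by simp
  rw [h]
  rfl

theorem indep_frac (k σ : Type) [Field k] : AlgebraicIndependent k fun i : σ =>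
    algebraMap (MvPolynomial σ k) (FractionRing (MvPolynomial σ k)) (MvPolynomial.X i) :=
  (MvPolynomial.algebraicIndependent_X σ k).map'
    (f := IsScalarTower.toAlgHom k _ _) (IsFractionRing.injective _ _)

theorem rk_frac (k σ : Type) [Field k] [Fintype σ] :
    rk k (Set.univ : Set (FractionRing (MvPolynomial σ k))) = Fintype.card σ :=
  (rk_gen (gen_frac k σ)).trans (rk_range_indep (indep_frac k σ))

theorem deg_dvd [CharZero k] {F Ω L σ : Type} [Field F] [Algebra k F] [Algebra K F]
    [IsScalarTower k K F] [IsFF K F] [Field Ω] [Algebra k Ω] [Algebra K Ω] [IsScalarTower k K Ω]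
    [Field L] [Algebra k L] [Algebra K L] [IsScalarTower k K L] [Fintype σ] (H : Hyp k K n l)
    {x : Fin n → K} (hx : AlgebraicIndependent k x) {u : σ → F} (hu : Coord k n u) {P : Plc F Ω}
    (h6 : P.Over K) (h7 : P.V ≠ ⊤) (ι : L →ₐ[K] Ω) {s : σ → L}
    (hs : IntermediateField.adjoin k (Set.range s) = ⊤) (hL : rk k (Set.range s) = n)
    (h8 : ∀ i, P.To (u i) (ι (s i))) : l ∣ finrank K L := by
  obtain ⟨V, ρ, hρ⟩ := P
  obtain ⟨w, rfl⟩ : ∃ w : Place K F, w.O = V := ⟨⟨V, h7, fun c => (h6 c).1⟩, rfl⟩
  let χ : ResidueField w.O →ₐ[K] Ω :=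
    { Ideal.Quotient.lift _ ρ fun a ha => (hρ a).2 ((w.O.valuation_lt_one_iff a).1 ha) with
      commutes' := fun c => (h6 c).2 }
  have h9 : χ.restrictScalars k '' (Set.range fun i => res w (u i)) =
      ι.restrictScalars k '' Set.range s := by
    rw [← Set.range_comp, ← Set.range_comp]
    congr 1
    funext i
    exact (congrArg χ (to_res w (h8 i).1).2.symm).trans (h8 i).2
  have hw : Reg k n w u := ⟨fun i => (h8 i).1, by
    rw [← rk_image (χ.restrictScalars k), h9, rk_image, hL]⟩
  have h10 : χ.fieldRange ≤ ι.fieldRange := by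
    rintro _ ⟨b, rfl⟩
    have h11 := IntermediateField.adjoin_map k (Set.range fun i => res w (u i))
      (χ.restrictScalars k)
    rw [hw.gen hu, h9, ← IntermediateField.adjoin_map, hs] at h11
    obtain ⟨c, -, hc⟩ := (SetLike.ext_iff.1 h11 (χ b)).1 ⟨b, trivial, rfl⟩
    exact ⟨c, hc⟩
  have h11 := IntermediateField.finrank_dvd_of_le_right h10
  rw [← χ.equivFieldRange.toLinearEquiv.finrank_eq,
    ← ι.equivFieldRange.toLinearEquiv.finrank_eq] at h11
  exact (core H hx hu w).trans h11

theorem Hyp.section [CharZero k] (H : Hyp k K n l) (hK : rk k (Set.univ : Set K) = n) {S : Set K}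
    (hS : S.Finite) (hg : IntermediateField.adjoin k S = ⊤) {L τ : Type} [Field L] [Algebra k L]
    [Algebra K L] [IsScalarTower k K L] [FiniteDimensional K L] (M : Submonoid (MvPolynomial τ k))
    (α : K →ₐ[k] Localization M) (β : Localization M →ₐ[k] L)
    (h : ∀ c, β (α c) = algebraMap K L c) : l ∣ finrank K L := by
  obtain ⟨x, -, hx⟩ := exists_indep hK.ge
  have h1 : FiniteDimensional (IntermediateField.adjoin k (Set.range x)) K := finite_of_rk hS
    (eq_top_iff.2 (hg ▸ IntermediateField.adjoin.mono _ _ _ Set.subset_union_left))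
    (ne_top_of_le_ne_top (by simp) ((rk_mono (Set.subset_univ _)).trans hK.le))
    (hK.le.trans ((by simpa using (rk_range_indep hx).ge : (n : ℕ∞) ≤ _).trans
      (rk_mono (IntermediateField.subset_adjoin _ _))))
  have : FiniteDimensional (IntermediateField.adjoin k (Set.range x)) L := Module.Finite.trans K L
  obtain ⟨γ, hγ⟩ := Field.exists_primitive_element (IntermediateField.adjoin k (Set.range x)) L
  obtain ⟨s, hs⟩ : ∃ s : Option (Fin n) → L, IntermediateField.adjoin k (Set.range s) = ⊤ :=
    ⟨ch _ γ, by rw [range_ch, ← Set.union_singleton]; exact (gen_base (gen_self x) _).2 hγ⟩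
  have hL : rk k (Set.range s) = n := by
    rw [← rk_gen hs, rk_univ (K := K), hK, rk_alg, add_zero]
  let A := MvPolynomial (Option (Fin n)) k
  let F := FractionRing A
  let ι := IsScalarTower.toAlgHom k L (AlgebraicClosure L)
  let u : Option (Fin n) → F := fun i => algebraMap A F (MvPolynomial.X i)
  have hu : Coord k n u := ⟨by simp, gen_frac _ _, (rk_frac _ _).trans (by simp)⟩
  obtain ⟨P, hP⟩ := exists_plc_of_hom (algebraMap A F) (ι.comp (MvPolynomial.aeval s)).toRingHom
    fun r hr => by rw [(IsFractionRing.injective A F) (hr.trans (map_zero _).symm), map_zero]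
  have hP' : ∀ r : A, P.To (algebraMap A F r) (ι (MvPolynomial.aeval s r)) := hP
  have hk : P.Over k := fun c => by
    have := hP' (algebraMap k A c)
    rwa [AlgHom.commutes, AlgHom.commutes, ← IsScalarTower.algebraMap_apply] at this
  have h2 : ∀ b : L, ∃ a, P.To a (ι b) := fun b => by
    obtain ⟨p, q, hq, e⟩ := frac hs b
    refine ⟨algebraMap A F p * (algebraMap A F q)⁻¹, ?_⟩
    rw [eq_div_of_mul_eq hq e, map_div₀, div_eq_mul_inv]
    exact (hP' p).mul ((hP' q).inv (by simpa using hq))
  choose r hr using fun i => h2 (β (algebraMap _ _ (MvPolynomial.X i : MvPolynomial τ k)))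
  have h3 : ∀ g : MvPolynomial τ k, P.To (MvPolynomial.aeval r g) (ι (β (algebraMap _ _ g))) := by
    intro g
    have h4 := Plc.To.aeval hk hr g
    have h5 : (MvPolynomial.aeval fun i =>
        ι (β (algebraMap _ _ (MvPolynomial.X i : MvPolynomial τ k)))) = ι.comp (β.comp (IsScalarTower.toAlgHom k (MvPolynomial τ k) (Localization M))) :=
      MvPolynomial.algHom_ext fun i => by simp
    rwa [h5] at h4
  have h4 : ∀ y : M, ι (β (algebraMap _ _ y.1)) ≠ 0 := fun y =>
    (((IsLocalization.map_units (Localization M) y).map β).map ι).ne_zero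
  let ψ : Localization M →ₐ[k] F := IsLocalization.liftAlgHom (M := M)
    (f := MvPolynomial.aeval r) fun y => ((h3 y).ne_zero (h4 y)).isUnit
  have h5 : ∀ b, P.To (ψ b) (ι (β b)) := fun b => by
    obtain ⟨⟨g, y⟩, e⟩ := IsLocalization.surj M b
    have h6 : ∀ g, ψ (algebraMap _ _ g) = MvPolynomial.aeval r g := fun g =>
      IsLocalization.lift_eq _ g
    have h7 := congrArg ψ e
    have h8 := congrArg (fun c => ι (β c)) e
    simp only [map_mul, h6] at h7 h8
    rw [eq_div_of_mul_eq ((h3 y).ne_zero (h4 y)) h7, eq_div_of_mul_eq (h4 y) h8, div_eq_mul_inv,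
      div_eq_mul_inv]
    exact (h3 g).mul ((h3 y).inv (h4 y))
  let : Algebra K F := (ψ.comp α).toRingHom.toAlgebra
  have : IsScalarTower k K F := IsScalarTower.of_algebraMap_eq fun c => ((ψ.comp α).commutes c).symm
  have := isFF hu hK
  have h6 : ∀ c, P.To (algebraMap K F c) (algebraMap K (AlgebraicClosure L) c) := fun c => by
    have := h5 (α c)
    rwa [h] at this
  have h7 : P.V ≠ ⊤ := fun e => by
    have h8 : AlgebraicIndependent k s := algebraicIndependent_iff.2 fun g hg => by_contra fun h0 => by
      have h9 := hP' g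
      rw [hg, map_zero, Plc.to_zero_iff, e] at h9
      exact h9.ne (Ord2_val_eq_one.2 ⟨by simpa using h0, trivial, trivial⟩)
    rw [rk_range_indep h8] at hL
    simp at hL
  exact deg_dvd H hx hu h6 h7 (IsScalarTower.toAlgHom K L _) hs hL fun i => by
    have := hP' (MvPolynomial.X i)
    rwa [MvPolynomial.aeval_X] at this

theorem exists_family (hK : rk k (Set.univ : Set K) = n) :
    ∃ s : Finset (K →ₐ[k] FractionRing (MvPolynomial (Fin n) k)),
      (∀ φ ∈ s, FiniteDimensional φ.fieldRange (FractionRing (MvPolynomial (Fin n) k))) ∧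
      Hyp k K n (s.gcd fun φ => finrank φ.fieldRange (FractionRing (MvPolynomial (Fin n) k))) := by
  classical
  obtain ⟨_, ⟨s, hs, rfl⟩, hmin⟩ := (wellFounded_dvdNotUnit (α := ℕ)).has_min
    {g | ∃ s : Finset (K →ₐ[k] FractionRing (MvPolynomial (Fin n) k)),
      (∀ φ ∈ s, FiniteDimensional φ.fieldRange (FractionRing (MvPolynomial (Fin n) k))) ∧
      (s.gcd fun φ => finrank φ.fieldRange (FractionRing (MvPolynomial (Fin n) k))) = g}
    ⟨_, ∅, by simp, rfl⟩
  refine ⟨s, hs, fun E σ _ _ _ _ _ _ e hc he => ?_⟩
  let ε := (Fintype.equivFinOfCardEq hc).symm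
  have h1 : Set.range (e ∘ ε) = Set.range e := ε.surjective.range_comp e
  have h2 : AlgebraicIndependent k (e ∘ ε) := indep_of_rk (by
    rw [h1, ← rk_gen he, rk_univ (K := K), hK, rk_alg]
    simp)
  let j := (h2.aevalEquivField.trans (IntermediateField.equivOfEq (h1 ▸ he))).trans
    IntermediateField.topEquiv
  let φ := j.symm.toAlgHom.comp (IsScalarTower.toAlgHom k K E)
  have h3 : (algebraMap φ.fieldRange (FractionRing (MvPolynomial (Fin n) k))).comp
      φ.equivFieldRange.toRingEquiv.toRingHom = j.symm.toRingEquiv.toRingHom.comp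
        (algebraMap K E) := RingHom.ext fun _ => rfl
  rw [Algebra.finrank_eq_of_equiv_equiv _ _ h3]
  by_contra hn
  refine hmin _ ⟨insert φ s, fun φ' h => ?_, rfl⟩ (dvdNotUnit_of_dvd_of_not_dvd ?_ fun h => hn ?_)
  · rcases Finset.mem_insert.1 h with rfl | h
    · exact Module.Finite.of_equiv_equiv φ.equivFieldRange.toRingEquiv j.symm.toRingEquiv h3
    · exact hs _ h
  · exact Finset.gcd_mono (Finset.subset_insert _ _)
  · exact h.trans (Finset.gcd_dvd (Finset.mem_insert_self _ _))

theorem main [CharZero k] (hfg : (⊤ : IntermediateField k K).FG) (hn : Algebra.trdeg k K = n)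
    {m : ℕ} {τ L : Type} [Field L] [Algebra k L] (M : Submonoid (MvPolynomial τ k))
    (α : FractionRing (MvPolynomial (Fin m) K) →ₐ[k] Localization M)
    (β : Localization M →ₐ[k] L) (hL : FiniteDimensional (β.comp α).fieldRange L) :
    ∃ s : Finset (K →ₐ[k] FractionRing (MvPolynomial (Fin n) k)),
      (∀ φ ∈ s, FiniteDimensional φ.fieldRange (FractionRing (MvPolynomial (Fin n) k))) ∧
      (s.gcd fun φ => finrank φ.fieldRange (FractionRing (MvPolynomial (Fin n) k))) ∣
        finrank (β.comp α).fieldRange L := by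
  have hK : rk k (Set.univ : Set K) = n := by
    obtain ⟨ι, x, hx⟩ := exists_isTranscendenceBasis' k K
    have := hx.isAlgebraic_field
    rw [rk_univ_of_finite (S := Set.range x), Rk_range_card hx.1, ENat.card,
      hx.cardinalMk_eq_trdeg, hn]
    simp
  obtain ⟨s, hs, H⟩ := exists_family hK
  obtain ⟨S, hS, hg⟩ := IntermediateField.fg_def.1 hfg
  refine ⟨s, hs, ?_⟩
  let K' := FractionRing (MvPolynomial (Fin m) K)
  have h1 : rk K (Set.univ : Set K') = m := (rk_frac _ _).trans (by simp)
  let : Algebra K' L := (β.comp α).toRingHom.toAlgebra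
  have : IsScalarTower k K' L := IsScalarTower.of_algebraMap_eq fun c => ((β.comp α).commutes c).symm
  have : FiniteDimensional K' L := Module.Finite.of_equiv_equiv
    (β.comp α).equivFieldRange.toRingEquiv.symm (RingEquiv.refl L) (RingHom.ext fun c =>
      congrArg Subtype.val ((β.comp α).equivFieldRange.apply_symm_apply c))
  have := hS.fintype
  refine ((H.stable hK m K' _ (gen_frac _ _) h1).section (n := n + m)
    (by rw [rk_univ (K := K), hK, h1, Nat.cast_add]) ((Set.finite_range _).union
      (Set.finite_range _)) ((gen_base (v := fun c : S => c.1) (by simpa using hg) _).2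
        (gen_frac K (Fin m))) M α β fun _ => rfl).trans (finrank_range k K' L).symm.dvd

end Pool.Agent.Lib.CPD
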